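import Mathlib
import Pool.Agent.N922.PQ.Final
import Pool.Agent.N441.PQ.LB

/-!
# The class attached to a tuple

Helper88 (project AV). `Att h α B`: the tuple `B` is the second Gram matrix of a normalised basis of the forms of the
class of `α`. Distinct classes give distinct tuples, and the translations `tau` preserve the class.
-/

set_option autoImplicit false
set_option linter.all false

open Matrix
open scoped Classical

namespace Pool.Agent.K6.H88.AV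

open Pool.Agent.N922.PQ
open Pool.Agent.N441.PQ
open Pool.Agent.N874.PP (Tup chA chB gq tau Two Ev Sq1 U0)

/-- The symmetric matrix of a tuple. -/
def mt (B : Tup ℤ) : Matrix (Fin 3) (Fin 3) ℤ := !![B.x, B.y, B.c; B.y, -2 * B.c, B.z; B.c, B.z, B.w]

/-- The tuple `B` comes from the class of `α`. -/
def Att {L : Type} [Field L] [CharZero L] {a b : ℤ} {θ : L} (h : IsCub a b θ) (α : L) (B : Tup ℤ) : Prop :=
  ∃ e : Fin 3 → L, LinearIndependent ℚ e ∧ (∀ i j, h.co 2 (e i * e j / α) = (JJ i j : ℚ)) ∧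
    ∀ i j, h.co 1 (e i * e j / α) = (mt B i j : ℚ)

theorem att_of {L : Type} [Field L] [NumberField L] {a b : ℤ} {θ : L} (h : IsCub a b θ) {α : L} (hα : α ≠ 0)
    {e : Fin 3 → L} (hli : LinearIndependent ℚ e) (h2 : ∀ i j, h.co 2 (e i * e j / α) = (JJ i j : ℚ))
    {B : Matrix (Fin 3) (Fin 3) ℤ} (h1 : ∀ i j, h.co 1 (e i * e j / α) = (B i j : ℚ)) (hm : B 1 1 = -2 * B 0 2) :
    Att h α (⟨B 0 0, B 0 1, B 0 2, B 1 2, B 2 2⟩ : Tup ℤ) := by
  refine ⟨e, hli, h2, fun i j => ?_⟩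
  rw [h1]
  have hs : ∀ i j, B i j = B j i := by
    intro i j
    have h3 : (B i j : ℚ) = B j i := by rw [← h1, ← h1, mul_comm (e i) (e j)]
    exact_mod_cast h3
  have h4 : B i j = mt (⟨B 0 0, B 0 1, B 0 2, B 1 2, B 2 2⟩ : Tup ℤ) i j := by
    fin_cases i <;> fin_cases j <;> simp [mt, hm, hs 1 0, hs 2 0, hs 2 1]
  rw [h4]

/-- From the lattice to the tuple. -/
def S_LBA : Prop := ∃ κ : ℕ, ∀ (L : Type) [Field L] [NumberField L] (a b : ℤ) (θ : L) (X : ℕ)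
  (S T : Finset ℤ) (s A B : ℤ → ℤ) (h : IsCub a b θ), GoodS S s → Fam X S s T A B a b →
  ∀ (α : L) (e : Fin 3 → L), α ≠ 0 → IsSquare (Algebra.norm ℚ α) → ¬ IsSquare α → SD e α →
  (∀ Q ∈ S, TTV Q θ e α) → ∃ (m : ℕ) (B : Tup ℤ), Xset κ X (2 ^ m) S s B ∧ chA B = a ∧ chB B = b ∧ Att h α B

/-- From the lattice to the tuple, with the relation between the class and the tuple (after helper441, N441.PQ.lb). -/
theorem lba (h1 : S_DET) (h2 : S_MAJ) (h3 : S_RED) (h4 : S_NF) (h5 : S_CHI) (h6 : S_NZ)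
    (h7 : S_TTB) : S_LBA := by
  obtain ⟨κ₀, hκ0, h4⟩ := h4
  refine ⟨⌈2 * κ₀ ^ 2⌉₊, ?_⟩
  intro L _ _ a b θ X S T s A B h hS hF α e hα hsq hns hSD hT
  obtain ⟨G, B0, hdet, hG, hB0⟩ := h1 L a b θ h hF.sq α e hα hsq hSD
  have hnorm : 0 < Algebra.norm ℚ α := by
    obtain ⟨r, hr⟩ := hsq
    have hr0 : r ≠ 0 := by
      rintro rfl
      rw [mul_zero] at hr
      exact hα (Algebra.norm_eq_zero_iff.1 hr)
    rw [hr]
    exact mul_self_pos.2 hr0
  obtain ⟨H, hH, hHdet, hC2, hC1, v0, hv0⟩ := h2 L a b θ h X hF.pa hF.da hF.db α e hα hnorm hSD.li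
  have hofG : (Matrix.of fun i j => h.co 2 (e i * e j / α)) = G.map (Int.castRingHom ℚ) := by
    ext i j
    rw [Matrix.of_apply, Matrix.map_apply, ← hG i j]
    rfl
  have hH1 : H.det = 1 := by
    rw [hHdet, hofG, ← RingHom.mapMatrix_apply, ← RingHom.map_det, hdet]
    simp
  obtain ⟨U1, hh, hU1, hpos, hmono, hprod, hrow⟩ := h3 H hH hH1
  have hGsymm : G.IsSymm := by
    ext i j
    rw [Matrix.transpose_apply]
    have h8 : (G j i : ℚ) = (G i j : ℚ) := by rw [hG, hG, mul_comm (e j)]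
    exact_mod_cast h8
  have hU1sq : U1.det * U1.det = 1 := by
    rcases Int.isUnit_iff.1 hU1 with h8 | h8 <;> rw [h8] <;> rfl
  -- the first change of basis
  obtain ⟨G1, hG1⟩ : ∃ G1, G1 = U1 * G * U1ᵀ := ⟨_, rfl⟩
  obtain ⟨B1, hB1⟩ : ∃ B1, B1 = U1 * B0 * U1ᵀ := ⟨_, rfl⟩
  have hG1b : ∀ i j, |(G1 i j : ℝ)| ≤ hh i * hh j := by
    intro i j
    have h8 := cs_change G U1 (fun i j => h.co 2 (e i * e j / α)) hG H hh hpos hrow 1 zero_le_one
      (fun u v => by rw [one_pow, one_mul]; exact hC2 u v) i j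
    rw [one_mul, ← hG1] at h8
    exact h8
  have hB1b : ∀ i j, |(B1 i j : ℝ)| ≤ (2 * X) * (hh i * hh j) := by
    intro i j
    have h8 := cs_change B0 U1 (fun i j => h.co 1 (e i * e j / α)) hB0 H hh hpos hrow (2 * X)
      (by positivity) hC1 i j
    rw [← hB1] at h8
    exact h8
  have hG1s : G1.IsSymm := by
    rw [hG1, Matrix.IsSymm, Matrix.transpose_mul, Matrix.transpose_mul, Matrix.transpose_transpose,
      hGsymm.eq, Matrix.mul_assoc]
  have hG1d : G1.det = -1 := by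
    rw [hG1, Matrix.det_mul, Matrix.det_mul, Matrix.det_transpose, hdet]
    linear_combination -hU1sq
  have hG1p : ∃ v : Fin 3 → ℤ, 0 < v ⬝ᵥ G1 *ᵥ v := by
    refine ⟨v0 ᵥ* U1⁻¹, ?_⟩
    have h8 : (v0 ᵥ* U1⁻¹) ᵥ* U1 = v0 := by
      rw [Matrix.vecMul_vecMul, Matrix.nonsing_inv_mul _ hU1, Matrix.vecMul_one]
    have h9 : (v0 ᵥ* U1⁻¹) ⬝ᵥ G1 *ᵥ (v0 ᵥ* U1⁻¹) = v0 ⬝ᵥ G *ᵥ v0 := by
      rw [hG1, ← Matrix.mulVec_mulVec, ← Matrix.mulVec_mulVec, Matrix.mulVec_transpose, h8,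
        Matrix.dotProduct_mulVec, h8]
    rw [h9]
    have h10 : ((v0 ⬝ᵥ G *ᵥ v0 : ℤ) : ℚ) = ∑ i, ∑ j, (v0 i : ℚ) * (v0 j : ℚ) *
        h.co 2 (e i * e j / α) := by
      simp only [← hG]
      simp only [dotProduct, Matrix.mulVec, Fin.sum_univ_three]
      push_cast
      ring
    have h11 : (0 : ℚ) < ((v0 ⬝ᵥ G *ᵥ v0 : ℤ) : ℚ) := by rw [h10]; exact hv0
    exact_mod_cast h11
  obtain ⟨m, U2, hU2, hJJ, hr0, hr1, hr2⟩ := h4 G1 hh hG1s hG1d hG1p hpos hmono hprod hG1b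
  -- the second change of basis
  obtain ⟨W, hW⟩ : ∃ W, W = U2 * U1 := ⟨_, rfl⟩
  have hWu : IsUnit W.det := by
    rw [hW, Matrix.det_mul]
    exact hU2.mul hU1
  have hWG : W * G * Wᵀ = JJ := by
    rw [← hJJ, hG1, hW, Matrix.transpose_mul]
    simp only [Matrix.mul_assoc]
  obtain ⟨B2, hB2⟩ : ∃ B2, B2 = W * B0 * Wᵀ := ⟨_, rfl⟩
  have hB2' : B2 = U2 * B1 * U2ᵀ := by
    rw [hB2, hB1, hW, Matrix.transpose_mul]
    simp only [Matrix.mul_assoc]
  obtain ⟨e', he'⟩ : ∃ e' : Fin 3 → L, ∀ i, e' i = ∑ j, (W i j : L) * e j :=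
    ⟨fun i => ∑ j, (W i j : L) * e j, fun i => rfl⟩
  have hli : LinearIndependent ℚ e' := li_change e e' W hWu hSD.li he'
  have hc2 : ∀ i j, h.co 2 (e' i * e' j / α) = (JJ i j : ℚ) := by
    intro i j
    rw [gram_change (h.co 2) α e e' G W hG he' i j, hWG]
  have hc1 : ∀ i j, h.co 1 (e' i * e' j / α) = (B2 i j : ℚ) := by
    intro i j
    rw [gram_change (h.co 1) α e e' B0 W hB0 he' i j, ← hB2]
  obtain ⟨hm, hchA, hchB⟩ := h5 L a b θ h α e' hα hli hc2 B2 hc1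
  have hb : ∀ i j, |(B2 i j : ℝ)| ≤ (2 * X) * ((∑ k, |(U2 i k : ℝ)| * hh k) *
      (∑ k, |(U2 j k : ℝ)| * hh k)) := by
    intro i j
    rw [hB2']
    exact size_change B1 U2 hh (2 * X) hB1b i j
  have hs0 : ∀ i, 0 ≤ ∑ k, |(U2 i k : ℝ)| * hh k := fun i =>
    Finset.sum_nonneg fun k _ => mul_nonneg (abs_nonneg _) (hpos k).le
  have hκ : 2 * κ₀ ^ 2 ≤ (⌈2 * κ₀ ^ 2⌉₊ : ℝ) := Nat.le_ceil _
  have hX : (0 : ℝ) ≤ X := Nat.cast_nonneg _
  have hT2 : (0 : ℝ) < (2 : ℝ) ^ m := by positivity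
  -- a bound for the products
  have hbd : ∀ (r s' u v : ℝ), 0 ≤ r → 0 ≤ s' → r ≤ u → s' ≤ v → ∀ t : ℝ, 0 ≤ t →
      u * v * t = κ₀ ^ 2 → ∀ w : ℝ, |w| ≤ (2 * X) * (r * s') →
      |w| * t ≤ (⌈2 * κ₀ ^ 2⌉₊ : ℝ) * X := by
    intro r s' u v hr hs' hu hv t ht huv w hw
    have h8 : r * s' ≤ u * v := mul_le_mul hu hv hs' (hr.trans hu)
    calc |w| * t ≤ (2 * X) * (r * s') * t := mul_le_mul_of_nonneg_right hw ht
      _ ≤ (2 * X) * (u * v) * t :=
          mul_le_mul_of_nonneg_right (mul_le_mul_of_nonneg_left h8 (by positivity)) ht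
      _ = (2 * κ₀ ^ 2) * X := by rw [← huv]; ring
      _ ≤ _ := mul_le_mul_of_nonneg_right hκ hX
  refine ⟨m, ⟨B2 0 0, B2 0 1, B2 0 2, B2 1 2, B2 2 2⟩, ?_, hchA, hchB, att_of h hα hli hc2 hc1 hm⟩
  have hbox : InBox ⌈2 * κ₀ ^ 2⌉₊ X (2 ^ m) (⟨B2 0 0, B2 0 1, B2 0 2, B2 1 2, B2 2 2⟩ : Tup ℤ) := by
    refine ⟨?_, ?_, ?_, ?_, ?_⟩
    · have h8 := hbd _ _ _ _ (hs0 0) (hs0 0) hr0 hr0 (((2 : ℝ) ^ m) ^ 2) (by positivity)
        (by field_simp) _ (hb 0 0)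
      exact_mod_cast h8
    · have h8 := hbd _ _ _ _ (hs0 0) (hs0 1) hr0 hr1 ((2 : ℝ) ^ m) (by positivity)
        (by field_simp) _ (hb 0 1)
      exact_mod_cast h8
    · have h8 := hbd _ _ _ _ (hs0 0) (hs0 2) hr0 hr2 1 zero_le_one
        (by field_simp) _ (hb 0 2)
      rw [mul_one] at h8
      exact_mod_cast h8
    · have h8 := hbd _ _ _ _ (hs0 1) (hs0 2) hr1 hr2 (((2 : ℝ) ^ m)⁻¹) (by positivity)
        (by field_simp) _ (hb 1 2)
      rw [mul_inv_le_iff₀ hT2] at h8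
      exact_mod_cast h8
    · have h8 := hbd _ _ _ _ (hs0 2) (hs0 2) hr2 hr2 ((((2 : ℝ) ^ m) ^ 2)⁻¹) (by positivity)
        (by field_simp) _ (hb 2 2)
      rw [mul_inv_le_iff₀ (by positivity)] at h8
      exact_mod_cast h8
  have hnz : B2 0 0 ≠ 0 := by
    intro h8
    refine hns (h6 L a b θ h α (e' 0) hα (hli.ne_zero 0) hsq ?_ ?_)
    · rw [hc2 0 0]
      simp [JJ]
    · rw [hc1 0 0, h8]
      simp
  refine ⟨hbox, hnz, ?_, ?_, ?_⟩
  · intro Q hQ
    obtain ⟨⟨hQ0, hQp⟩, hQ8, -⟩ := hS Q hQ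
    refine h7 L a b θ h hF.sq α e e' W hα hWu he' hSD.li hc2 B2 hc1 hm Q hQp ?_ (hT Q hQ)
    intro h8
    have h9 := Int.le_of_dvd (by norm_num) h8
    interval_cases Q
    · exact hQp.ne_one rfl
    · omega
  · intro Q hQ
    rw [hchA]
    exact hF.ra Q hQ
  · intro Q hQ
    rw [hchB]
    exact hF.rb Q hQ


/-- The translations preserve the class. -/
theorem att_tau {L : Type} [Field L] [CharZero L] {a b : ℤ} {θ : L} (h : IsCub a b θ) {α : L} {B : Tup ℤ}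
    (hB : Att h α B) (u : ℤ) : Att h α (tau u B) := by
  obtain ⟨e, hli, h2, h1⟩ := hB
  obtain ⟨W, hW⟩ : ∃ W : Matrix (Fin 3) (Fin 3) ℤ, W = !![1, 0, 0; -2 * u, 1, 0; -2 * u ^ 2, 2 * u, 1] := ⟨_, rfl⟩
  have hdet : W.det = 1 := by
    rw [hW, Matrix.det_fin_three]
    simp
  obtain ⟨e', he'⟩ : ∃ e' : Fin 3 → L, ∀ i, e' i = ∑ j, (W i j : L) * e j :=
    ⟨fun i => ∑ j, (W i j : L) * e j, fun i => rfl⟩
  refine ⟨e', li_change e e' W (by rw [hdet]; exact isUnit_one) hli he', fun i j => ?_, fun i j => ?_⟩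
  · have e1 : W * JJ * Wᵀ = JJ := by
      rw [hW]
      ext i j
      fin_cases i <;> fin_cases j <;> simp [JJ, Matrix.mul_apply, Fin.sum_univ_three] <;> ring
    rw [gram_change (h.co 2) α e e' JJ W (fun i j => (h2 i j).symm) he' i j, e1]
  · have e1 : W * mt B * Wᵀ = mt (tau u B) := by
      rw [hW]
      ext i j
      fin_cases i <;> fin_cases j <;> simp [mt, tau, gq, Matrix.mul_apply, Fin.sum_univ_three] <;> ring
    rw [gram_change (h.co 1) α e e' (mt B) W (fun i j => (h1 i j).symm) he' i j, e1]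

/-- Multiplication by `θ` in a normalised basis. -/
theorem theta_mul {L : Type} [Field L] [NumberField L] {a b : ℤ} {θ : L} (h : IsCub a b θ) {α : L} {B : Tup ℤ}
    {e : Fin 3 → L} (hli : LinearIndependent ℚ e) (h2 : ∀ i j, h.co 2 (e i * e j / α) = (JJ i j : ℚ))
    (h1 : ∀ i j, h.co 1 (e i * e j / α) = (mt B i j : ℚ)) (j : Fin 3) :
    θ * e j = (mt B j 2 : ℚ) • e 0 + (mt B j 1 : ℚ) • e 1 + (mt B j 0 : ℚ) • e 2 := by
  let f : Module.Basis (Fin 3) ℚ L := basisOfLinearIndependentOfCardEqFinrank hli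
    (by rw [h.rank]; rfl)
  have hf : ∀ i, f i = e i := fun i => by
    simp [f, coe_basisOfLinearIndependentOfCardEqFinrank]
  let T : Fin 3 → Fin 3 → ℚ := fun i j => f.repr (θ * e j) i
  have hT : ∀ j, θ * e j = T 0 j • e 0 + T 1 j • e 1 + T 2 j • e 2 := by
    intro j
    have := f.sum_repr (θ * e j)
    rw [Fin.sum_univ_three, hf, hf, hf] at this
    exact this.symm
  have hBT : ∀ j l, (mt B j l : ℚ) = T 0 j * (JJ 0 l : ℚ) + T 1 j * (JJ 1 l : ℚ)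
      + T 2 j * (JJ 2 l : ℚ) := by
    intro j l
    rw [← h1, ← Pool.Agent.N738.PQ.co_theta, ← h2, ← h2, ← h2]
    have e1 : θ * (e j * e l / α) = T 0 j • (e 0 * e l / α) + T 1 j • (e 1 * e l / α) +
        T 2 j • (e 2 * e l / α) := by
      have e2 : θ * (e j * e l / α) = (θ * e j) * (e l / α) := by ring
      rw [e2, hT j]
      simp only [Rat.smul_def]
      ring
    rw [e1]
    simp only [map_add, map_smul, smul_eq_mul]
  have T0 : ∀ j, T 0 j = mt B j 2 := by intro j; rw [hBT]; simp [JJ]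
  have T1 : ∀ j, T 1 j = mt B j 1 := by intro j; rw [hBT]; simp [JJ]
  have T2 : ∀ j, T 2 j = mt B j 0 := by intro j; rw [hBT]; simp [JJ]
  rw [hT j, T0, T1, T2]

/-- Distinct classes have distinct tuples. -/
theorem att_inj {L : Type} [Field L] [NumberField L] {a b : ℤ} {θ : L} (h : IsCub a b θ) {α α' : L} {B : Tup ℤ}
    (hα : α ≠ 0) (hα' : α' ≠ 0) (hB : Att h α B) (hB' : Att h α' B) : IsSquare (α * α') := by
  obtain ⟨e, hli, h2, h1⟩ := hB
  obtain ⟨e', hli', h2', h1'⟩ := hB'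
  let f : Module.Basis (Fin 3) ℚ L := basisOfLinearIndependentOfCardEqFinrank hli (by rw [h.rank]; rfl)
  have hf : ∀ i, f i = e i := fun i => by simp [f, coe_basisOfLinearIndependentOfCardEqFinrank]
  obtain ⟨Φ, hΦ⟩ : ∃ Φ : L →ₗ[ℚ] L, ∀ i, Φ (e i) = e' i :=
    ⟨f.constr ℚ e', fun i => by rw [← hf i, Module.Basis.constr_basis]⟩
  have hθ : ∀ x, Φ (θ * x) = θ * Φ x := by
    intro x
    have key : Φ ∘ₗ LinearMap.mulLeft ℚ θ = LinearMap.mulLeft ℚ θ ∘ₗ Φ := by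
      refine f.ext fun j => ?_
      rw [hf, LinearMap.comp_apply, LinearMap.comp_apply, LinearMap.mulLeft_apply, LinearMap.mulLeft_apply, hΦ,
        theta_mul h hli h2 h1 j, theta_mul h hli' h2' h1' j]
      simp only [map_add, map_smul, hΦ]
    have := LinearMap.congr_fun key x
    simpa only [LinearMap.comp_apply, LinearMap.mulLeft_apply] using this
  obtain ⟨t, ht⟩ : ∃ t : L, t = Φ 1 := ⟨_, rfl⟩
  have hmul : ∀ x, Φ x = x * t := by
    intro x
    obtain ⟨r, s, u, rfl⟩ := h.gen x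
    have k1 : Φ θ = θ * t := by
      have := hθ 1
      rwa [mul_one, ← ht] at this
    have k2 : Φ (θ ^ 2) = θ ^ 2 * t := by
      have := hθ θ
      rw [k1] at this
      rw [pow_two, this]
      ring
    have e1 : (r : L) + (s : L) * θ + (u : L) * θ ^ 2 = r • (1 : L) + s • θ + u • θ ^ 2 := by
      simp only [Rat.smul_def, mul_one]
    rw [e1, map_add, map_add, map_smul, map_smul, map_smul, ← ht, k1, k2]
    simp only [Rat.smul_def]
    ring
  have he : ∀ i, e' i = e i * t := fun i => by rw [← hΦ i, hmul]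
  obtain ⟨z, hz⟩ : ∃ z : L, z = t ^ 2 / α' - 1 / α := ⟨_, rfl⟩
  have hzero : ∀ x y : L, h.co 2 (z * (x * y)) = 0 := by
    have hb : ∀ i j, h.co 2 (z * (e i * e j)) = 0 := by
      intro i j
      have e1 : z * (e i * e j) = e' i * e' j / α' - e i * e j / α := by
        rw [hz, he, he]
        ring
      rw [e1, map_sub, h2, h2', sub_self]
    intro x y
    have hx := f.sum_repr x
    have hy := f.sum_repr y
    simp only [Fin.sum_univ_three, hf] at hx hy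
    rw [← hx, ← hy]
    obtain ⟨p, hp⟩ : ∃ p : Fin 3 → ℚ, ∀ i, p i = f.repr x i := ⟨_, fun _ => rfl⟩
    obtain ⟨q, hq⟩ : ∃ q : Fin 3 → ℚ, ∀ i, q i = f.repr y i := ⟨_, fun _ => rfl⟩
    simp only [← hp, ← hq]
    have e1 : z * ((p 0 • e 0 + p 1 • e 1 + p 2 • e 2) * (q 0 • e 0 + q 1 • e 1 + q 2 • e 2)) =
        ∑ i, ∑ j, (p i * q j) • (z * (e i * e j)) := by
      simp only [Fin.sum_univ_three, Rat.smul_def]
      push_cast
      ring
    rw [e1]
    simp only [map_sum, map_smul, hb, smul_zero, Finset.sum_const_zero]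
  have hz0 : z = 0 := by
    by_contra hne
    have h3 := hzero (z⁻¹) (θ ^ 2)
    rw [← mul_assoc, mul_inv_cancel₀ hne, one_mul] at h3
    have h4 : h.co 2 (θ ^ 2) = 1 := by
      have h5 : θ ^ 2 = h.basis 2 := by rw [h.basis_apply]; rfl
      rw [h5, IsCub.co, Module.Basis.coord_apply, Module.Basis.repr_self]
      simp
    rw [h4] at h3
    exact one_ne_zero h3
  refine ⟨α * t, ?_⟩
  rw [hz] at hz0
  have h3 : t ^ 2 / α' = 1 / α := sub_eq_zero.1 hz0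
  rw [div_eq_div_iff hα' hα] at h3
  linear_combination (-α) * h3

end Pool.Agent.K6.H88.AV
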