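import Pool.Agent.K6.H88.AV.Att

/-!
# The number of classes, on average

Helper88 (project AV).
-/

set_option autoImplicit false
set_option linter.all false

open IsDedekindDomain NumberField
open scoped Classical

namespace Pool.Agent.K6.H88.AV

open Pool.Agent.N922.PQ
open Pool.Agent.N874.PP (Tup chA chB gq tau Two Ev Sq1 U0)

/-- The class of `x` in `Lˣ/Lˣ²` is in the group: square norm, even valuations. -/
structure Hc {L : Type} [Field L] [NumberField L] (x : L) : Prop where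
  ne : x ≠ 0
  norm : IsSquare (Algebra.norm ℚ x)
  ev : ∀ 𝔓 : HeightOneSpectrum (𝓞 L), Ev 𝔓 x

/-- There are at least `n` nontrivial classes. -/
def Many (a b : ℤ) (n : ℕ) : Prop := ∃ (L : Type) (_ : Field L) (_ : NumberField L) (θ : L)
  (_ : IsCub a b θ) (x : Fin n → L), (∀ i, Hc (x i)) ∧ (∀ i, ¬ IsSquare (x i)) ∧
    ∀ i j, i ≠ j → ¬ IsSquare (x i * x j)

/-- The curves. -/
structure Fam0 (X : ℕ) (a b : ℤ) : Prop where
  pa : 0 < a
  da : a ≤ X ^ 2
  db : |b| ≤ X ^ 3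
  sq : Squarefree (dsc a b)

theorem lbaT : S_LBA :=
  lba (Pool.Agent.N227.PQ.det Pool.Agent.N849.PQ.int) Pool.Agent.N50.PQ.Maj.maj
    Pool.Agent.N945.PQ.RED.main (Pool.Agent.N368.PQ.nf Pool.Agent.N592.PQ.nrm)
    Pool.Agent.N738.PQ.chi Pool.Agent.N738.PQ.nz Pool.Agent.N774.PQ.ttb

/-- The tuples of the classes of one curve. -/
theorem tuples : ∃ κ : ℕ, ∀ (X : ℕ) (a b : ℤ) (n : ℕ), Fam0 X a b → Many a b n →
    ∃ (m : Fin n → ℕ) (B : Fin n → Tup ℤ),
      (∀ i, Xset κ X (2 ^ m i) ∅ (fun _ => 0) (B i) ∧ chA (B i) = a ∧ chB (B i) = b) ∧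
      ∀ (i j : Fin n) (u v : ℤ), tau u (B i) = tau v (B j) → i = j := by
  obtain ⟨κ, hκ⟩ := lbaT
  refine ⟨κ, fun X a b n hF hM => ?_⟩
  obtain ⟨L, _, _, θ, hc, x, hx, hns, hne⟩ := hM
  have hFam : Fam X ∅ (fun _ => 0) ∅ (fun _ => 0) (fun _ => 0) a b :=
    { pa := hF.pa
      da := hF.da
      db := hF.db
      ra := fun Q hQ => absurd hQ (Finset.notMem_empty Q)
      rb := fun Q hQ => absurd hQ (Finset.notMem_empty Q)
      ta := fun Q hQ => absurd hQ (Finset.notMem_empty Q)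
      tb := fun Q hQ => absurd hQ (Finset.notMem_empty Q)
      sq := hF.sq }
  have key : ∀ i, ∃ (m : ℕ) (B : Tup ℤ), Xset κ X (2 ^ m) ∅ (fun _ => 0) B ∧ chA B = a ∧ chB B = b ∧
      Att hc (x i) B := by
    intro i
    obtain ⟨e, he⟩ := Pool.Agent.N400.PQSD.sd L (𝓞 L) hc.rank (x i) (hx i).ne (hx i).ev
    exact hκ L a b θ X ∅ ∅ (fun _ => 0) (fun _ => 0) (fun _ => 0) hc
      (fun Q hQ => absurd hQ (Finset.notMem_empty Q)) hFam (x i) e (hx i).ne (hx i).norm (hns i) he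
      (fun Q hQ => absurd hQ (Finset.notMem_empty Q))
  choose m B h1 h2 h3 h4 using key
  refine ⟨m, B, fun i => ⟨h1 i, h2 i, h3 i⟩, fun i j u v h => ?_⟩
  by_contra hij
  refine hne i j hij (att_inj hc (hx i).ne (hx j).ne (att_tau hc (h4 i) u) ?_)
  rw [h]
  exact att_tau hc (h4 j) v

/-- The number of classes is bounded on average. -/
theorem count : ∃ K : ℕ, ∀ X : ℕ, 1 ≤ X → ∀ (F : Finset (ℤ × ℤ)) (n : ℤ × ℤ → ℕ),
    (∀ p ∈ F, Fam0 X p.1 p.2 ∧ Many p.1 p.2 (n p)) → ∑ p ∈ F, n p ≤ K * X ^ 5 := by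
  obtain ⟨κ, hκ⟩ := tuples
  obtain ⟨K, hK⟩ := Pool.Agent.N50.PQ.box0 (29 * κ)
  refine ⟨2 * K, fun X hX F n h => ?_⟩
  have key : ∀ p : {p // p ∈ F}, ∃ (m : Fin (n p.1) → ℕ) (B : Fin (n p.1) → Tup ℤ),
      (∀ i, Xset κ X (2 ^ m i) ∅ (fun _ => 0) (B i) ∧ chA (B i) = p.1.1 ∧ chB (B i) = p.1.2) ∧
      ∀ (i j : Fin (n p.1)) (u v : ℤ), tau u (B i) = tau v (B j) → i = j :=
    fun p => hκ X p.1.1 p.1.2 (n p.1) (h p.1 p.2).1 (h p.1 p.2).2
  choose m B h1 h2 using key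
  let I : Type := Σ p : {p // p ∈ F}, Fin (n p.1)
  let M : I → ℕ := fun z => m z.1 z.2
  let BB : I → Tup ℤ := fun z => B z.1 z.2
  have hX1 : ∀ z : I, Xset κ X (2 ^ M z) ∅ (fun _ => 0) (BB z) := fun z => (h1 z.1 z.2).1
  have hA : ∀ z : I, chA (BB z) = z.1.1.1 := fun z => (h1 z.1 z.2).2.1
  have hB : ∀ z : I, chB (BB z) = z.1.1.2 := fun z => (h1 z.1 z.2).2.2
  have hinj : ∀ (z z' : I) (u v : ℤ), tau u (BB z) = tau v (BB z') → z = z' := by
    rintro ⟨p, i⟩ ⟨p', i'⟩ u v h3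
    have hp : p = p' := by
      apply Subtype.ext
      refine Prod.ext ?_ ?_
      · have k1 := hA ⟨p, i⟩
        have k2 := hA ⟨p', i'⟩
        rw [← Pool.Agent.N50.PQ.chA_tau u] at k1
        rw [← Pool.Agent.N50.PQ.chA_tau v] at k2
        rw [h3] at k1
        exact k1.symm.trans k2
      · have k1 := hB ⟨p, i⟩
        have k2 := hB ⟨p', i'⟩
        rw [← Pool.Agent.N50.PQ.chB_tau u] at k1
        rw [← Pool.Agent.N50.PQ.chB_tau v] at k2
        rw [h3] at k1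
        exact k1.symm.trans k2
    subst hp
    rw [h2 p i i' u v h3]
  have hcard : ∑ p ∈ F, n p = Fintype.card I := by
    rw [Fintype.card_sigma]
    simp only [Fintype.card_fin]
    exact (Finset.sum_coe_sort F n).symm
  have hfib : ∀ k : ℕ, ((Finset.univ.filter fun z : I => M z = k).card : ℝ) ≤
      (K * X ^ 5 : ℝ) * (1 / 2) ^ k := by
    intro k
    obtain ⟨hfin, hle⟩ := hK ∅ (fun _ => 0) X (2 ^ k) Nat.one_le_two_pow hX
    have hfin' : Finite {B : Tup ℤ | Xset (29 * κ) X (2 ^ k) ∅ (fun _ => 0) B} := hfin.to_subtype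
    have h5 : (Finset.univ.filter fun z : I => M z = k).card * 2 ^ k ≤
        {B : Tup ℤ | Xset (29 * κ) X (2 ^ k) ∅ (fun _ => 0) B}.ncard := by
      rw [← Nat.card_coe_set_eq {B : Tup ℤ | Xset (29 * κ) X (2 ^ k) ∅ (fun _ => 0) B}]
      have e1 : (Finset.univ.filter fun z : I => M z = k).card * 2 ^ k =
          Nat.card ({z : I // M z = k} × Fin (2 ^ k)) := by
        rw [Nat.card_prod, Nat.card_fin, Nat.card_eq_fintype_card, Fintype.card_subtype]
      rw [e1]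
      refine Nat.card_le_card_of_injective (fun z => (⟨tau ((z.2.1 : ℕ) : ℤ) (BB z.1.1), ?_⟩ :
        {B : Tup ℤ | Xset (29 * κ) X (2 ^ k) ∅ (fun _ => 0) B})) ?_
      · have h6 := hX1 z.1.1
        rw [z.1.2] at h6
        exact Pool.Agent.N50.PQ.X_tau h6 (Int.natCast_nonneg _) (by exact_mod_cast z.2.2.le)
      · rintro ⟨z, u⟩ ⟨z', u'⟩ h6
        have h7 : tau ((u.1 : ℕ) : ℤ) (BB z.1) = tau ((u'.1 : ℕ) : ℤ) (BB z'.1) := congrArg Subtype.val h6
        have h8 : z = z' := Subtype.ext (hinj _ _ _ _ h7)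
        subst h8
        have h9 : (BB z.1).y - 2 * ((u.1 : ℕ) : ℤ) * (BB z.1).x =
            (BB z.1).y - 2 * ((u'.1 : ℕ) : ℤ) * (BB z.1).x := congrArg Tup.y h7
        have h10 : (2 * (BB z.1).x) * (((u.1 : ℕ) : ℤ) - ((u'.1 : ℕ) : ℤ)) = 0 := by linear_combination -h9
        have h11 : u = u' := by
          apply Fin.ext
          rcases mul_eq_zero.1 h10 with h12 | h12
          · rcases mul_eq_zero.1 h12 with h13 | h13
            · exact absurd h13 (by norm_num)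
            · exact absurd h13 (hX1 z.1).nz
          · have := sub_eq_zero.1 h12
            exact_mod_cast this
        rw [h11]
    have h6 : ((Finset.univ.filter fun z : I => M z = k).card : ℝ) * 2 ^ k ≤ K * X ^ 5 := by
      exact_mod_cast h5.trans hle
    have hp : (0 : ℝ) < 2 ^ k := by positivity
    rw [one_div, inv_pow, ← div_eq_mul_inv, le_div_iff₀ hp]
    exact h6
  have hM : ∀ z : I, M z ∈ Finset.range (κ * X + 1) := by
    intro z
    have h5 := Pool.Agent.N415.PQ.four_pow_le (hX1 z).box (hX1 z).nz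
    have h6 : M z < 4 ^ M z := Nat.lt_pow_self (by norm_num)
    rw [Finset.mem_range]
    omega
  have h7 : (Fintype.card I : ℝ) ≤ 2 * (K * X ^ 5) := by
    have e1 : Fintype.card I = ∑ k ∈ Finset.range (κ * X + 1), (Finset.univ.filter fun z : I => M z = k).card := by
      rw [← Finset.card_univ]
      exact Finset.card_eq_sum_card_fiberwise fun z _ => hM z
    rw [e1]
    push_cast
    calc ∑ k ∈ Finset.range (κ * X + 1), ((Finset.univ.filter fun z : I => M z = k).card : ℝ) ≤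
        ∑ k ∈ Finset.range (κ * X + 1), (K * X ^ 5 : ℝ) * (1 / 2) ^ k := Finset.sum_le_sum fun k _ => hfib k
      _ = (K * X ^ 5 : ℝ) * ∑ k ∈ Finset.range (κ * X + 1), (1 / 2 : ℝ) ^ k := by rw [Finset.mul_sum]
      _ ≤ (K * X ^ 5 : ℝ) * 2 := mul_le_mul_of_nonneg_left (sum_geometric_two_le _) (by positivity)
      _ = _ := by ring
  rw [hcard]
  have h8 : (Fintype.card I : ℝ) ≤ ((2 * K * X ^ 5 : ℕ) : ℝ) := by
    push_cast
    linarith
  exact_mod_cast h8

end Pool.Agent.K6.H88.AV
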