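import Pool.Agent.K6.H88.AV.SubC
import Pool.Agent.K6.H88.TC.FinB

/-!
# The average of the bounds

Helper88 (project AV).
-/

set_option autoImplicit false
set_option linter.all false

open Polynomial IsDedekindDomain WeierstrassCurve WeierstrassCurve.Affine NumberField
open Pool.Agent.TH115.GD
open scoped Classical IntermediateField

namespace Pool.Agent.K6.H88.AV

open Pool.Agent.N922.PQ
open Pool.Agent.N874.PP (Tup chA chB gq tau Two Ev Sq1 U0 sW IsBeta Rt sg)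
open Pool.Agent.N874.PM (PLoc Lies SelR ShaR)
open Pool.Agent.K6.H88.TC

/-- The curves of the family. -/
structure Nce (N : ℕ) (a b : ℤ) : Prop where
  pa : 0 < a
  sq : Squarefree (dsc a b)
  nz : ∀ P : ℤ, IsPr P → P ≤ max N 3 → NZ a b P

/-- The number of nontrivial classes. -/
noncomputable def ncl (a b : ℤ) : ℕ := sSup {n : ℕ | Many a b n}

theorem fam0_of {N : ℕ} {a b : ℤ} (h : Nce N a b) : ∃ X : ℕ, 1 ≤ X ∧ Fam0 X a b := by
  refine ⟨a.natAbs + b.natAbs + 1, by omega, h.pa, ?_, ?_, h.sq⟩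
  · have h1 : a ≤ ((a.natAbs + b.natAbs + 1 : ℕ) : ℤ) := by
      push_cast
      have := le_abs_self a
      have := abs_nonneg b
      linarith
    have h2 : (1 : ℤ) ≤ ((a.natAbs + b.natAbs + 1 : ℕ) : ℤ) := by
      push_cast
      have := abs_nonneg a
      have := abs_nonneg b
      linarith
    nlinarith
  · have h1 : |b| ≤ ((a.natAbs + b.natAbs + 1 : ℕ) : ℤ) := by
      push_cast
      have := abs_nonneg a
      linarith
    have h2 : (1 : ℤ) ≤ ((a.natAbs + b.natAbs + 1 : ℕ) : ℤ) := by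
      push_cast
      have := abs_nonneg a
      have := abs_nonneg b
      linarith
    refine h1.trans ?_
    have h3 : ((a.natAbs + b.natAbs + 1 : ℕ) : ℤ) ^ 1 ≤ ((a.natAbs + b.natAbs + 1 : ℕ) : ℤ) ^ 3 :=
      pow_le_pow_right₀ h2 (by norm_num)
    rwa [pow_one] at h3

theorem bdd {N : ℕ} {a b : ℤ} (h : Nce N a b) : BddAbove {n : ℕ | Many a b n} := by
  obtain ⟨K, hK⟩ := count
  obtain ⟨X, hX, hF⟩ := fam0_of h
  refine ⟨K * X ^ 5, fun n hn => ?_⟩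
  have h1 := hK X hX {(a, b)} (fun _ => n) (fun p hp => by
    rw [Finset.mem_singleton] at hp
    rw [hp]
    exact ⟨hF, hn⟩)
  rwa [Finset.sum_singleton] at h1

theorem not_many {N : ℕ} {a b : ℤ} (h : Nce N a b) : ¬ Many a b (ncl a b + 1) := by
  intro h1
  have := le_csSup (bdd h) h1
  unfold ncl at this
  omega

theorem many_ncl {N : ℕ} {a b : ℤ} (h : Nce N a b) (h0 : ncl a b ≠ 0) : Many a b (ncl a b) := by
  have hne : {n : ℕ | Many a b n}.Nonempty := by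
    rw [Set.nonempty_iff_ne_empty]
    intro he
    apply h0
    unfold ncl
    rw [he]
    exact csSup_empty
  exact Nat.sSup_mem hne (bdd h)

/-- The sum of the numbers of classes. -/
theorem sum_ncl : ∃ K : ℕ, ∀ (N X : ℕ), 1 ≤ X → ∀ F : Finset (ℤ × ℤ),
    (∀ p ∈ F, Fam0 X p.1 p.2 ∧ Nce N p.1 p.2) → ∑ p ∈ F, ncl p.1 p.2 ≤ K * X ^ 5 := by
  obtain ⟨K, hK⟩ := count
  refine ⟨K, fun N X hX F hF => ?_⟩
  have h1 := hK X hX (F.filter fun p => ncl p.1 p.2 ≠ 0) (fun p => ncl p.1 p.2) (fun p hp => by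
    rw [Finset.mem_filter] at hp
    exact ⟨(hF p hp.1).1, many_ncl (hF p hp.1).2 hp.2⟩)
  rwa [Finset.sum_filter_ne_zero] at h1

/-- The bounds over a subfield. -/
structure GoodV (F : Type) [Field F] [NumberField F] (A B d : ℤ) (r : ℕ) : Prop where
  sel : SelLe (𝓞 F) (sW (((A * d ^ 2 : ℤ)) : F) (((B * d ^ 3 : ℤ)) : F)) (r ^ Module.finrank ℚ F)
  fg : AddGroup.FG (Pt (sW (((A * d ^ 2 : ℤ)) : F) (((B * d ^ 3 : ℤ)) : F)) F)
  le : 2 ^ rkF F A B d ≤ r ^ Module.finrank ℚ F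
  grow : ∀ (F' : Type) [Field F'] [NumberField F'] (j : F' →+* F),
    2 ^ rkF F A B d * r ^ Module.finrank ℚ F' ≤ 2 ^ rkF F' A B d * r ^ Module.finrank ℚ F

theorem two_pr : IsPr 2 := ⟨by norm_num, Int.prime_two⟩

theorem three_pr : IsPr 3 := ⟨by norm_num, Int.prime_three⟩

theorem no_rat {N : ℕ} {a b : ℤ} (h : Nce N a b) (t : ℚ) : t ^ 3 + (a : ℚ) * t + (b : ℚ) ≠ 0 := by
  intro ht
  refine no_root2 (h.nz 2 two_pr (by omega)) (t : ℚ_[2]) ?_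
  exact_mod_cast congrArg (fun x : ℚ => (x : ℚ_[2])) ht

/-- The bounds for a curve of the family. -/
theorem goodV {N : ℕ} {a b : ℤ} (h : Nce N a b) (M : Type) [Field M] [NumberField M]
    [IsGalois ℚ M] {n : ℕ} (hn : Module.finrank ℚ M = 2 ^ n)
    (hram : ∀ P : ℤ, IsPr P → ¬ Unr M P → NZ a b P) {d : ℤ} (hd0 : d ≠ 0)
    (hdP : ∀ P : ℤ, IsPr P → P ∣ d → NZ a b P) (F : Type) [Field F] [NumberField F] (i : F →+* M) :
    GoodV F a b d (ncl a b + 1) := by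
  have H : Parts2 := parts2
  obtain ⟨X', hX', hF⟩ := fam0_of h
  have hirr : Irreducible (ff ℚ a b) := irr_tw' fun t ht => no_rat h t ht
  obtain ⟨L, iF, iN, θ, hc, hu⟩ := exists_cub hirr
  have hn2 := h.nz 2 two_pr (by omega)
  have hbo : Odd b := by
    rw [← Int.not_even_iff_odd]
    intro h
    apply hn2 0
    have := h.two_dvd
    simpa using this
  have hao : Odd a := by
    rw [← Int.not_even_iff_odd]
    intro h
    apply hn2 1
    rw [← even_iff_two_dvd, one_pow, mul_one]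
    rcases h with ⟨x, hx⟩
    rcases hbo with ⟨y, hy⟩
    exact ⟨x + y + 1, by rw [hx, hy]; ring⟩
  obtain ⟨Ω, j1, j2, j3, j4, htop, hr⟩ := exists_omega (fun E _ _ t ht => hu E t ht) M
    (nr_M H hao hbo M hn)
  obtain ⟨T', hmem⟩ := exists_T Pool.Agent.N40.PQ.gen H.p.ur M hd0 {2, 3}
  have U : SV L M Ω a b θ X' T' d n (ncl a b) := by
    refine ⟨hc, hF, (hmem 2).2 (Or.inl (by simp)), (hmem 3).2 (Or.inl (by simp)),
      fun P hP => ?_, fun P hP => ?_, fun P hP hPT => ?_, hd0,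
      fun P hP hPd => (hmem P).2 (Or.inr ⟨hP, Or.inr hPd⟩), hn, hr, htop, not_many h⟩
    · rcases (hmem P).1 hP with h1 | h1
      · rw [Finset.mem_insert, Finset.mem_singleton] at h1
        rcases h1 with rfl | rfl
        · exact two_pr
        · exact three_pr
      · exact h1.1
    · rcases (hmem P).1 hP with h1 | ⟨h1, h' | h'⟩
      · rw [Finset.mem_insert, Finset.mem_singleton] at h1
        rcases h1 with rfl | rfl
        · exact h.nz 2 two_pr (by omega)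
        · exact h.nz 3 three_pr (by omega)
      · exact hram P h1 h'
      · exact hdP P h1 h'
    · by_contra hn
      exact hPT ((hmem P).2 (Or.inr ⟨hP, Or.inl hn⟩))
  have hrank := U.rank_sub H i
  exact ⟨U.sel_sub H (fun E _ _ t ht => hu E t ht) i, hrank.1, hrank.2,
    fun F' _ _ j => U.grow_sub H i j⟩

theorem small_of_crv {H X : ℕ} (hH : H < 27 * ((X + 1) * 1) ^ 6) (hX : 1 ≤ X) {N : ℕ} {a b : ℤ}
    (hC : Crv H a b) (h : Nce N a b) : Fam0 (4 * X) a b := by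
  have h1 : H ≤ (4 * X) ^ 6 := by
    have h2 : (X + 1) * 1 ≤ 2 * X := by omega
    have h3 : ((X + 1) * 1) ^ 6 ≤ (2 * X) ^ 6 := Nat.pow_le_pow_left h2 6
    have h4 : 27 * (2 * X) ^ 6 ≤ (4 * X) ^ 6 := by
      have e1 : (4 * X) ^ 6 = 64 * (2 * X) ^ 6 := by ring
      rw [e1]
      exact Nat.mul_le_mul_right _ (by norm_num)
    omega
  have h1' : (H : ℤ) ≤ (((4 * X : ℕ) : ℤ)) ^ 6 := by exact_mod_cast h1
  have hY : (0 : ℤ) ≤ ((4 * X : ℕ) : ℤ) := Int.natCast_nonneg _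
  refine ⟨h.pa, ?_, ?_, h.sq⟩
  · have h2 := hC.hA
    have h3 : a ^ 3 ≤ ((((4 * X : ℕ) : ℤ)) ^ 2) ^ 3 := by
      have h4 : |a| = a := abs_of_pos h.pa
      rw [h4] at h2
      have h5 : 0 ≤ a ^ 3 := (pow_pos h.pa 3).le
      have e : ((((4 * X : ℕ) : ℤ)) ^ 2) ^ 3 = (((4 * X : ℕ) : ℤ)) ^ 6 := by ring
      rw [e]
      linarith
    exact le_of_pow_le_pow_left₀ (by norm_num) (pow_nonneg hY 2) h3
  · have h2 := hC.hB
    have h3 : |b| ^ 2 ≤ ((((4 * X : ℕ) : ℤ)) ^ 3) ^ 2 := by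
      have e : ((((4 * X : ℕ) : ℤ)) ^ 3) ^ 2 = (((4 * X : ℕ) : ℤ)) ^ 6 := by ring
      rw [e, sq_abs]
      have h5 : 0 ≤ b ^ 2 := sq_nonneg b
      linarith
    exact le_of_pow_le_pow_left₀ (by norm_num) (pow_nonneg hY 3) h3

/-- The main theorem. -/
theorem mainV (N : ℕ) : ∃ (C : ℕ) (c : ℝ) (H₀ : ℕ), 0 < c ∧ ∀ H ≥ H₀,
    {p : ℤ × ℤ | Crv H p.1 p.2}.Finite ∧
    c * ({p : ℤ × ℤ | Crv H p.1 p.2}.ncard : ℝ) ≤
      ({p : ℤ × ℤ | Crv H p.1 p.2 ∧ Nce N p.1 p.2}.ncard : ℝ) ∧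
    ∑ᶠ p ∈ {p : ℤ × ℤ | Crv H p.1 p.2 ∧ Nce N p.1 p.2}, (ncl p.1 p.2 + 1) ≤
      C * {p : ℤ × ℤ | Crv H p.1 p.2 ∧ Nce N p.1 p.2}.ncard := by
  obtain ⟨T₀, hT₀, hN₀⟩ : ∃ T : Finset ℤ, (∀ P ∈ T, IsPr P) ∧
      (∀ P : ℤ, IsPr P → P ≤ max N 3 → P ∈ T) := by
    have hf : {P : ℤ | IsPr P ∧ P ≤ max (N : ℤ) 3}.Finite := by
      refine (Set.finite_Icc 0 (max (N : ℤ) 3)).subset ?_
      rintro P ⟨h, h2⟩
      exact ⟨h.1.le, h2⟩
    refine ⟨hf.toFinset, fun P hP => ?_, fun P h1 h2 => ?_⟩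
    · exact (hf.mem_toFinset.1 hP).1
    · exact hf.mem_toFinset.2 ⟨h1, by exact_mod_cast h2⟩
  obtain ⟨T, A, B, hTT, hT⟩ := Pool.Agent.N954.PQ.tch T₀ hT₀
  obtain ⟨c₁, hc₁, hfam⟩ := Pool.Agent.N456.PQ.fam T A B hT
  obtain ⟨X₁, hX₁⟩ := hfam ∅ (fun _ => 0) (fun Q hQ => absurd hQ (Finset.notMem_empty Q))
    (Finset.disjoint_empty_left _)
  obtain ⟨K, hK⟩ := sum_ncl
  -- the lower bound
  have hlow : ∀ X : ℕ, X₁ ≤ X → ∀ H : ℕ, 27 * (X * 1) ^ 6 ≤ H → c₁ * (X : ℝ) ^ 5 ≤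
      ({p : ℤ × ℤ | Crv H p.1 p.2 ∧ Nce N p.1 p.2}.ncard : ℝ) := by
    intro X hX H hH
    have h1 := hX₁ X hX
    rw [Finset.prod_empty, one_mul] at h1
    refine h1.trans ?_
    have h2 : {p : ℤ × ℤ | Fam X ∅ (fun _ => 0) T A B p.1 p.2} ⊆
        {p : ℤ × ℤ | Crv H p.1 p.2 ∧ Nce N p.1 p.2} := by
      rintro p hp
      have hp' : Fam X ∅ (fun _ => 0) T A B p.1 p.2 := hp
      refine ⟨?_, hp'.pa, hp'.sq, fun P hP hPN => fam_nt hT hp' (hTT (hN₀ P hP hPN))⟩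
      have h3 := Pool.Agent.N707.PQ.crv X H ∅ T (fun _ => 0) A B p.1 p.2
        (fun Q hQ => absurd hQ (Finset.notMem_empty Q)) hT hp' ∅ (Finset.Subset.refl _) (by
          rw [Finset.prod_empty, mul_one]
          rw [mul_one] at hH
          exact_mod_cast hH)
      simpa only [Finset.prod_empty, one_pow, mul_one] using h3
    exact_mod_cast Set.ncard_le_ncard h2 ((crv_fin H).subset fun p hp => hp.1)
  obtain ⟨c, hc, H₁, hH₁⟩ := Pool.Agent.N607.PQ.cnt (fun p => Nce N p.1 p.2) 1 X₁ c₁ hc₁ le_rfl hlow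
  obtain ⟨C, hC⟩ := exists_nat_gt (1024 * (K : ℝ) / c₁)
  refine ⟨C + 1, c, max H₁ (27 * ((X₁ + 1) * 1) ^ 6), hc, fun H hH => ?_⟩
  obtain ⟨hfin, hdens⟩ := hH₁ H ((le_max_left _ _).trans hH)
  refine ⟨hfin, hdens, ?_⟩
  obtain ⟨X, hX1, hX2⟩ := Pool.Agent.N607.PQ.exists_X 1 H le_rfl
  have hX : X₁ < X := by
    by_contra hcon
    push Not at hcon
    have h2 : ((X + 1) * 1) ^ 6 ≤ ((X₁ + 1) * 1) ^ 6 := Nat.pow_le_pow_left (by omega) 6
    have h3 := (le_max_right H₁ (27 * ((X₁ + 1) * 1) ^ 6)).trans hH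
    omega
  have hl := hlow X hX.le H hX1
  have hfin2 : {p : ℤ × ℤ | Crv H p.1 p.2 ∧ Nce N p.1 p.2}.Finite := hfin.subset fun p hp => hp.1
  have hs := hK N (4 * X) (by omega) hfin2.toFinset (fun p hp => by
    have hp' := hfin2.mem_toFinset.1 hp
    exact ⟨small_of_crv hX2 (by omega) hp'.1 hp'.2, hp'.2⟩)
  rw [finsum_mem_eq_finite_toFinset_sum _ hfin2, Finset.sum_add_distrib, Finset.sum_const, smul_eq_mul,
    mul_one, ← Set.ncard_eq_toFinset_card _ hfin2]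
  have hs' : (∑ p ∈ hfin2.toFinset, ncl p.1 p.2 : ℕ) ≤
      C * {p : ℤ × ℤ | Crv H p.1 p.2 ∧ Nce N p.1 p.2}.ncard := by
    have h4 : ((∑ p ∈ hfin2.toFinset, ncl p.1 p.2 : ℕ) : ℝ) ≤ K * (4 * (X : ℝ)) ^ 5 := by
      exact_mod_cast hs
    have h5 : (K : ℝ) * (4 * (X : ℝ)) ^ 5 ≤
        C * ({p : ℤ × ℤ | Crv H p.1 p.2 ∧ Nce N p.1 p.2}.ncard : ℝ) := by
      rw [div_lt_iff₀ hc₁] at hC
      calc (K : ℝ) * (4 * (X : ℝ)) ^ 5 = 1024 * (K : ℝ) * (X : ℝ) ^ 5 := by ring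
        _ ≤ C * c₁ * (X : ℝ) ^ 5 := by gcongr
        _ = C * (c₁ * (X : ℝ) ^ 5) := by ring
        _ ≤ _ := by gcongr
    exact_mod_cast h4.trans h5
  calc _ ≤ C * {p : ℤ × ℤ | Crv H p.1 p.2 ∧ Nce N p.1 p.2}.ncard +
        {p : ℤ × ℤ | Crv H p.1 p.2 ∧ Nce N p.1 p.2}.ncard := Nat.add_le_add_right hs' _
    _ = _ := by ring

end Pool.Agent.K6.H88.AV
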