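import Mathlib

/-!
# A projection to a finite group of classes modulo squares

Helper88 (project AV).
-/

set_option autoImplicit false
set_option linter.all false

open scoped Classical

namespace Pool.Agent.K6.H88.AV

theorem proj_core {Ω : Type} [Field Ω] (V : Set Ω) (hV0 : ∀ x ∈ V, x ≠ 0)
    (hV1 : (1 : Ω) ∈ V) (hVm : ∀ x ∈ V, ∀ y ∈ V, x * y ∈ V) (N : ℕ)
    (hN : ¬ ∃ x : Fin (N + 1) → Ω, (∀ i, x i ∈ V) ∧ (∀ i, ¬ IsSquare (x i)) ∧
      ∀ i j, i ≠ j → ¬ IsSquare (x i * x j))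
    {Q : Type} [AddCommGroup Q] (h2 : ∀ x : Q, (2 : ℕ) • x = 0) (cl : Ω → Q)
    (clm : ∀ x y : Ω, x ≠ 0 → y ≠ 0 → cl (x * y) = cl x + cl y)
    (cl0 : ∀ x : Ω, x ≠ 0 → (cl x = 0 ↔ IsSquare x)) :
    ∃ (U : Type) (_ : AddCommGroup U) (_ : Fintype U) (χ : Ω → U), Fintype.card U ≤ N + 1 ∧
      (∀ u : U, u + u = 0) ∧
      (∀ x y : Ω, x ≠ 0 → y ≠ 0 → χ (x * y) = χ x + χ y) ∧
      ∀ x ∈ V, χ x = 0 → IsSquare x := by
  letI : Module (ZMod 2) Q := AddCommGroup.zmodModule h2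
  have cladd : ∀ u : Q, u + u = 0 := fun u => by rw [← two_nsmul]; exact h2 u
  have cl1 : cl 1 = 0 := (cl0 1 one_ne_zero).2 ⟨1, (mul_one 1).symm⟩
  let U : Submodule (ZMod 2) Q :=
    { carrier := cl '' V
      add_mem' := by
        rintro _ _ ⟨x, hx, rfl⟩ ⟨y, hy, rfl⟩
        exact ⟨x * y, hVm x hx y hy, clm x y (hV0 x hx) (hV0 y hy)⟩
      zero_mem' := ⟨1, hV1, cl1⟩
      smul_mem' := by
        rintro c _ ⟨x, hx, rfl⟩
        have hc : c = 0 ∨ c = 1 := by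
          revert c
          decide
        rcases hc with rfl | rfl
        · rw [zero_smul]
          exact ⟨1, hV1, cl1⟩
        · rw [one_smul]
          exact ⟨x, hx, rfl⟩ }
  have hUmem : ∀ u : Q, u ∈ U ↔ ∃ x ∈ V, cl x = u := fun u => Iff.rfl
  obtain ⟨π, hπ⟩ := LinearMap.exists_leftInverse_of_injective U.subtype U.ker_subtype
  -- the group is finite
  have hs : ({u : Q | u ∈ U ∧ u ≠ 0}).encard ≤ N := by
    by_contra hlt
    rw [not_le] at hlt
    obtain ⟨t, hts, ht⟩ := Set.exists_subset_encard_eq (Order.add_one_le_of_lt hlt)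
    have htf : t.Finite := Set.finite_of_encard_eq_coe (k := N + 1) (by rw [ht]; push_cast; rfl)
    have hcard : Nat.card t = N + 1 := by
      rw [Nat.card_coe_set_eq, Set.ncard_def, ht]
      rfl
    haveI := htf.to_subtype
    let e : Fin (N + 1) ≃ t := (Finite.equivFinOfCardEq hcard).symm
    have hx : ∀ i, ∃ x ∈ V, cl x = (e i : Q) := fun i => (hUmem _).1 (hts (e i).2).1
    choose x hxV hxe using hx
    refine hN ⟨x, hxV, fun i hi => ?_, fun i j hij hi => ?_⟩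
    · exact (hts (e i).2).2 ((hxe i).symm.trans ((cl0 _ (hV0 _ (hxV i))).2 hi))
    · have h3 := (cl0 _ (mul_ne_zero (hV0 _ (hxV i)) (hV0 _ (hxV j)))).2 hi
      rw [clm _ _ (hV0 _ (hxV i)) (hV0 _ (hxV j)), hxe, hxe] at h3
      have h4 : (e i : Q) = e j := by
        have h5 := cladd (e j : Q)
        exact add_right_cancel (h3.trans h5.symm)
      exact hij (e.injective (Subtype.ext h4))
  have hU : (U : Set Q).encard ≤ N + 1 := by
    have h3 : (U : Set Q) ⊆ insert 0 {u : Q | u ∈ U ∧ u ≠ 0} := by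
      intro u hu
      by_cases h0 : u = 0
      · exact Set.mem_insert_iff.2 (Or.inl h0)
      · exact Set.mem_insert_iff.2 (Or.inr ⟨hu, h0⟩)
    exact ((Set.encard_le_encard h3).trans (Set.encard_insert_le _ _)).trans (by gcongr)
  have hUf : (U : Set Q).Finite :=
    Set.finite_of_encard_le_coe (k := N + 1) (by push_cast; exact hU)
  haveI : Finite U := hUf.to_subtype
  have hUc : Nat.card U ≤ N + 1 := by
    have h3 : Nat.card U = (U : Set Q).ncard := Nat.card_coe_set_eq _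
    rw [h3]
    have h4 := hUf.cast_ncard_eq
    rw [← h4] at hU
    exact_mod_cast hU
  letI : Fintype U := Fintype.ofFinite U
  refine ⟨U, inferInstance, inferInstance, fun x => π (cl x), ?_, fun u => ?_, fun x y hx hy => ?_,
    fun x hx h => ?_⟩
  · rw [← Nat.card_eq_fintype_card]
    exact hUc
  · apply Subtype.ext
    exact cladd u
  · change π (cl (x * y)) = π (cl x) + π (cl y)
    rw [clm x y hx hy, map_add]
  · have h3 : π (U.subtype ⟨cl x, (hUmem _).2 ⟨x, hx, rfl⟩⟩) = ⟨cl x, (hUmem _).2 ⟨x, hx, rfl⟩⟩ :=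
      LinearMap.congr_fun hπ _
    rw [Submodule.subtype_apply] at h3
    change π (cl x) = 0 at h
    rw [h3] at h
    exact (cl0 x (hV0 x hx)).1 (congrArg Subtype.val h)

theorem exists_proj {Ω : Type} [Field Ω] (V : Set Ω) (hV0 : ∀ x ∈ V, x ≠ 0)
    (hV1 : (1 : Ω) ∈ V) (hVm : ∀ x ∈ V, ∀ y ∈ V, x * y ∈ V) (N : ℕ)
    (hN : ¬ ∃ x : Fin (N + 1) → Ω, (∀ i, x i ∈ V) ∧ (∀ i, ¬ IsSquare (x i)) ∧
      ∀ i j, i ≠ j → ¬ IsSquare (x i * x j)) :
    ∃ (U : Type) (_ : AddCommGroup U) (_ : Fintype U) (χ : Ω → U), Fintype.card U ≤ N + 1 ∧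
      (∀ u : U, u + u = 0) ∧
      (∀ x y : Ω, x ≠ 0 → y ≠ 0 → χ (x * y) = χ x + χ y) ∧
      ∀ x ∈ V, χ x = 0 → IsSquare x := by
  let R : AddSubgroup (Additive Ωˣ) := (nsmulAddMonoidHom (α := Additive Ωˣ) 2).range
  have h2 : ∀ x : Additive Ωˣ ⧸ R, (2 : ℕ) • x = 0 := by
    intro x
    obtain ⟨a, rfl⟩ := QuotientAddGroup.mk_surjective x
    rw [← QuotientAddGroup.mk_nsmul, QuotientAddGroup.eq_zero_iff]
    exact ⟨a, rfl⟩
  let cl : Ω → Additive Ωˣ ⧸ R := fun x =>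
    if h : x ≠ 0 then QuotientAddGroup.mk (Additive.ofMul (Units.mk0 x h)) else 0
  have hcl : ∀ x : Ω, ∀ h : x ≠ 0, cl x = QuotientAddGroup.mk (Additive.ofMul (Units.mk0 x h)) :=
    fun x h => dif_pos h
  refine proj_core V hV0 hV1 hVm N hN h2 cl (fun x y hx hy => ?_) (fun x hx => ?_)
  · rw [hcl x hx, hcl y hy, hcl _ (mul_ne_zero hx hy), ← QuotientAddGroup.mk_add, ← ofMul_mul,
      Units.mk0_mul]
  · rw [hcl x hx, QuotientAddGroup.eq_zero_iff]
    constructor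
    · rintro ⟨v, hv⟩
      have h1 := congrArg (fun w : Additive Ωˣ => ((Additive.toMul w : Ωˣ) : Ω)) hv
      simp only [nsmulAddMonoidHom_apply, toMul_ofMul, toMul_nsmul, Units.val_pow_eq_pow_val,
        Units.val_mk0] at h1
      exact ⟨_, by rw [← h1, pow_two]⟩
    · rintro ⟨y, hy⟩
      have hy0 : y ≠ 0 := by
        rintro rfl
        exact hx (by rw [hy, mul_zero])
      refine ⟨Additive.ofMul (Units.mk0 y hy0), ?_⟩
      rw [nsmulAddMonoidHom_apply, ← ofMul_pow]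
      congr 1
      apply Units.ext
      rw [Units.val_pow_eq_pow_val, Units.val_mk0, Units.val_mk0, hy, pow_two]

end Pool.Agent.K6.H88.AV
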