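import Pool.Agent.K6.H88.TC.SelB
import Pool.Agent.K6.H88.AV.Cnt
import Pool.Agent.K6.H88.AV.Prj

/-!
# The bound for the 2-Selmer group over the extension in terms of the number of classes

Helper88 (project AV), adapted from `Pool.Agent.K6.H88.TC.SelB`.
-/

set_option autoImplicit false
set_option linter.all false

open Polynomial IsDedekindDomain WeierstrassCurve WeierstrassCurve.Affine NumberField
open Pool.Agent.TH115.GD
open scoped Classical IntermediateField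

namespace Pool.Agent.K6.H88.AV

open Pool.Agent.N922.PQ
open Pool.Agent.N874.PP (Tup chA chB gq tau Two Ev Sq1 U0 sW IsBeta Rt sg)
open Pool.Agent.N874.PM (PLoc Lies SelR ShaR)
open Pool.Agent.K6.H88.TC

/-- The data of the descent. -/
structure SV (L M Ω : Type) [Field L] [NumberField L] [Field M] [NumberField M]
    [Field Ω] [NumberField Ω] [Algebra L Ω] [Algebra M Ω] (a b : ℤ) (θ : L) (X' : ℕ)
    (T' : Finset ℤ) (d : ℤ) (n N : ℕ) : Prop where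
  cub : IsCub a b θ
  fam : Fam0 X' a b
  two : (2 : ℤ) ∈ T'
  three : (3 : ℤ) ∈ T'
  pr : ∀ P ∈ T', IsPr P
  nt : ∀ P ∈ T', ∀ z : ℤ, ¬ P ∣ z ^ 3 + a * z + b
  ur : ∀ P : ℤ, IsPr P → P ∉ T' → Unr M P
  d0 : d ≠ 0
  dT : ∀ P : ℤ, IsPr P → P ∣ d → P ∈ T'
  deg : Module.finrank ℚ M = 2 ^ n
  deg3 : Module.finrank M Ω = 3
  top : M⟮algebraMap L Ω θ⟯ = ⊤
  few : ¬ Many a b (N + 1)

theorem fam_of {X' : ℕ} {a b : ℤ} (hF : Fam0 X' a b) :
    Fam X' ∅ (fun _ => 0) ∅ (fun _ => 0) (fun _ => 0) a b :=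
  { pa := hF.pa
    da := hF.da
    db := hF.db
    ra := fun Q hQ => absurd hQ (Finset.notMem_empty Q)
    rb := fun Q hQ => absurd hQ (Finset.notMem_empty Q)
    ta := fun Q hQ => absurd hQ (Finset.notMem_empty Q)
    tb := fun Q hQ => absurd hQ (Finset.notMem_empty Q)
    sq := hF.sq }

section

variable {L M Ω : Type} [Field L] [NumberField L] [Field M] [NumberField M]
  [Field Ω] [NumberField Ω] [Algebra L Ω] [Algebra M Ω] [IsGalois ℚ M]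
variable {a b : ℤ} {θ : L} {X' : ℕ} {T' : Finset ℤ} {d : ℤ} {n N : ℕ}

namespace SV

variable (U : SV L M Ω a b θ X' T' d n N)

include U

omit [IsGalois ℚ M] in
theorem dsc_ne : dsc (a * d ^ 2) (b * d ^ 3) ≠ 0 := by
  have e : dsc (a * d ^ 2) (b * d ^ 3) = d ^ 6 * dsc a b := by
    simp only [dsc]
    ring
  rw [e]
  exact mul_ne_zero (pow_ne_zero _ U.d0) U.fam.sq.ne_zero

omit [IsGalois ℚ M] in
theorem bo : Odd b := by
  rw [← Int.not_even_iff_odd]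
  intro h
  apply U.nt 2 U.two 0
  have := h.two_dvd
  simpa using this

omit [IsGalois ℚ M] in
theorem ao : Odd a := by
  rw [← Int.not_even_iff_odd]
  intro h
  apply U.nt 2 U.two 1
  have h1 := U.bo
  rw [← even_iff_two_dvd, one_pow, mul_one]
  rcases h with ⟨x, hx⟩
  rcases h1 with ⟨y, hy⟩
  exact ⟨x + y + 1, by rw [hx, hy]; ring⟩

omit [IsGalois ℚ M] in
theorem hcm : IsCub (a * d ^ 2) (b * d ^ 3) (((d : ℤ) : L) * θ) := cub_tw U.cub U.d0

omit [IsGalois ℚ M] in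
theorem htm : M⟮algebraMap L Ω (((d : ℤ) : L) * θ)⟯ = ⊤ := top_tw U.top U.d0

omit [IsGalois ℚ M] in
theorem bas : Bas3 M (((a * d ^ 2 : ℤ)) : M) (((b * d ^ 3 : ℤ)) : M)
    (algebraMap L Ω (((d : ℤ) : L) * θ)) := bas_M U.hcm U.htm U.deg3

/-- The condition at the odd primes. -/
theorem cnd (H : Parts2) {h : M[X]}
    (hloc : ∀ w : HeightOneSpectrum (𝓞 M), ¬ Ov 2 w → PLoc (w.adicCompletion M)
      (((a * d ^ 2 : ℤ)) : M) (((b * d ^ 3 : ℤ)) : M) h)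
    (h0 : aeval (algebraMap L Ω (((d : ℤ) : L) * θ)) h ≠ 0) :
    Cnd (𝓞 Ω) ∅ T' (algebraMap L Ω θ) (aeval (algebraMap L Ω (((d : ℤ) : L) * θ)) h) := by
  have teq : algebraMap L Ω (((d : ℤ) : L) * θ) = ((d : ℤ) : Ω) * algebraMap L Ω θ := by
    rw [map_mul, map_intCast]
  rw [teq] at h0 ⊢
  have key := cnd_tw (S := ∅) (J := ∅) (s := fun _ => 0) (T := ∅) (A := fun _ => 0) (B := fun _ => 0)
    (T' := T') (d := d) (h := h) H.p.exq H.p.lie H.p.loc1 H.p.loc2 U.cub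
    (fun Q hQ => absurd hQ (Finset.notMem_empty Q)) (fam_of U.fam) U.top
    (fun Q hQ => absurd hQ (Finset.notMem_empty Q)) U.two U.three U.pr U.ur
    (Finset.disjoint_empty_left _) (Finset.Subset.refl _) U.d0 U.dT
  simp only [Finset.prod_empty, mul_one] at key
  exact key hloc h0

theorem cmul (H : Parts2) : ∀ x y : Ω, x ≠ 0 → y ≠ 0 → Cnd (𝓞 Ω) ∅ T' (algebraMap L Ω θ) x →
      Cnd (𝓞 Ω) ∅ T' (algebraMap L Ω θ) y → Cnd (𝓞 Ω) ∅ T' (algebraMap L Ω θ) (x * y) := by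
  intro x y hx hy h h'
  exact cnd_mul H.p.cls (fun Q hQ => absurd hQ (Finset.notMem_empty Q))
    (fun Q hQ => absurd hQ (Finset.notMem_empty Q)) hx hy h h'

/-- The elements of `L` which satisfy the conditions. -/
theorem hc_of (H : Parts2) {x : L} (hx : x ≠ 0) (hN : IsSquare (Algebra.norm ℚ x))
    (hC : Cnd (𝓞 Ω) ∅ T' (algebraMap L Ω θ) (algebraMap L Ω x)) : Hc x := by
  refine ⟨hx, hN, fun 𝔓 => ?_⟩
  by_cases hP : ∃ P ∈ T', Ov P 𝔓
  · obtain ⟨P, hPT, hP𝔓⟩ := hP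
    exact H.p.p3 L (𝓞 L) a b θ U.cub U.fam.sq P (U.pr P hPT).2 (U.nt P hPT) x hx hN 𝔓 hP𝔓
  · obtain ⟨P, hPr, hP'⟩ := exists_below 𝔓
    have hPT : P ∉ T' := fun h => hP ⟨P, h, hP'⟩
    obtain ⟨𝔓', hv⟩ := up_val U.top hPr.2 (U.ur P hPr hPT) 𝔓 hP'
    rw [← ev_down hv]
    exact hC.ev 𝔓' (fun P hPT h => hP ⟨P, hPT, (ov_down hv P).1 h⟩)
      (fun Q hQ h => absurd hQ (Finset.notMem_empty Q))

theorem nr (H : Parts2) (x : M) : x ^ 3 + (((a * d ^ 2 : ℤ)) : M) * x + (((b * d ^ 3 : ℤ)) : M) ≠ 0 :=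
  no_root_tw' (fun t => nr_M H U.ao U.bo M U.deg t) U.d0 x

/-- The map which detects all the classes. -/
theorem exists_map (H : Parts2) : ∃ (G : Type) (_ : AddCommGroup G) (_ : Fintype G) (χ : Ω → G),
    Fintype.card G ≤ N + 1 ∧ (∀ u : G, u + u = 0) ∧
    (∀ x y : Ω, x ≠ 0 → y ≠ 0 → χ (x * y) = χ x + χ y) ∧
      ∀ x : Ω, x ≠ 0 → Cnd (𝓞 Ω) ∅ T' (algebraMap L Ω θ) x → IsSquare (Algebra.norm M x) →
        (∀ σ : Gal(Ω/L), χ (σ x) = 0) → IsSquare x := by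
  have h2K : (2 : ℚ) ≠ 0 := by norm_num
  have h1C : Cnd (𝓞 Ω) ∅ T' (algebraMap L Ω θ) (1 : Ω) := by
    have := cnd_sq (O' := 𝓞 Ω) (J := ∅) (T := T') (θ := algebraMap L Ω θ) (one_ne_zero : (1 : Ω) ≠ 0)
    rwa [one_pow] at this
  obtain ⟨G, i1, i2, χ, hcard, htwo, hχ, hχ2⟩ := exists_proj
    {z : Ω | ∃ x : L, x ≠ 0 ∧ IsSquare (Algebra.norm ℚ x) ∧
      Cnd (𝓞 Ω) ∅ T' (algebraMap L Ω θ) (algebraMap L Ω x) ∧ z = algebraMap L Ω x}
    (by
      rintro _ ⟨x, hx, -, -, rfl⟩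
      exact (_root_.map_ne_zero _).2 hx)
    ⟨1, one_ne_zero, by rw [map_one]; exact ⟨1, (mul_one 1).symm⟩, by rw [map_one]; exact h1C,
      (map_one _).symm⟩
    (by
      rintro _ ⟨x, hx, hxN, hxC, rfl⟩ _ ⟨y, hy, hyN, hyC, rfl⟩
      refine ⟨x * y, mul_ne_zero hx hy, ?_, ?_, (map_mul _ _ _).symm⟩
      · rw [map_mul]
        exact hxN.mul hyN
      · rw [map_mul]
        exact U.cmul H _ _ ((_root_.map_ne_zero _).2 hx) ((_root_.map_ne_zero _).2 hy) hxC hyC)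
    N (by
      rintro ⟨z, hz, hz1, hz2⟩
      choose x hx hxN hxC hxz using hz
      refine U.few ⟨L, inferInstance, inferInstance, θ, U.cub, x,
        fun i => U.hc_of H (hx i) (hxN i) (hxC i), fun i hi => ?_, fun i j hij hi => ?_⟩
      · apply hz1 i
        obtain ⟨y, hy⟩ := hi
        exact ⟨algebraMap L Ω y, by rw [hxz, hy, map_mul]⟩
      · apply hz2 i j hij
        obtain ⟨y, hy⟩ := hi
        exact ⟨algebraMap L Ω y, by rw [hxz, hxz, ← map_mul, hy, map_mul]⟩)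
  refine ⟨G, i1, i2, χ, hcard, htwo, hχ, fun x hx hC hN hσ => ?_⟩
  have hsq0 : ∀ y : Ω, y ≠ 0 → χ (y ^ 2) = 0 := by
    intro y hy
    rw [pow_two, hχ y y hy hy]
    exact htwo _
  refine H.p.tow n ℚ L M Ω h2K U.deg U.cub.rank U.deg3
    (fun x => Cnd (𝓞 Ω) ∅ T' (algebraMap L Ω θ) x ∧ ∀ σ : Gal(Ω/L), χ (σ x) = 0)
    (fun x hx => ⟨cnd_sq hx, fun σ => ?_⟩)
    (fun x y hx hy h h' => ⟨U.cmul H x y hx hy h.1 h'.1, fun σ => ?_⟩)
    (fun σ x h => ⟨cnd_sig H.p.sig rfl σ h.1, fun τ => ?_⟩)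
    (fun x hx hC hN => ?_) x hx ⟨hC, hσ⟩ hN
  · rw [map_pow]
    exact hsq0 _ ((_root_.map_ne_zero _).2 hx)
  · rw [map_mul, hχ _ _ ((_root_.map_ne_zero _).2 hx) ((_root_.map_ne_zero _).2 hy), h.2, h'.2, add_zero]
  · exact h.2 (τ * σ)
  · refine inj_sq U.cub U.top U.deg3 hx hN (hχ2 _ ⟨x, hx, hN, hC.1, rfl⟩ ?_)
    have h2 := hC.2 1
    rwa [AlgEquiv.one_apply] at h2

/-- The bound for the Selmer group. -/
theorem sel_le (H : Parts2) : SelLe (𝓞 M) (sW (((a * d ^ 2 : ℤ)) : M) (((b * d ^ 3 : ℤ)) : M))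
    ((N + 1) ^ Module.finrank ℚ M) := by
  have h6M : (6 : M) ≠ 0 := by norm_num
  obtain ⟨G, i1, i2, χ, hcd, htwo, h1, h2⟩ := U.exists_map H
  have hb := U.bas
  have hirrD := irr_tw' (U.nr H)
  have hdisc : 4 * (((a * d ^ 2 : ℤ)) : M) ^ 3 + 27 * (((b * d ^ 3 : ℤ)) : M) ^ 2 ≠ 0 := by
    have h1 := U.dsc_ne
    unfold dsc at h1
    exact_mod_cast h1
  have hRt : Rt (((a * d ^ 2 : ℤ)) : M) (((b * d ^ 3 : ℤ)) : M)
      (algebraMap L Ω (((d : ℤ) : L) * θ)) := hb.root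
  intro f hf h2f hloc
  choose β hβ using fun i => H.p.gb M _ _ h6M hdisc hirrD (f i) (hf i) (h2f i)
  choose h hh hn using fun i => H.p.gn M _ _ h6M hdisc hirrD (f i) (hf i) (h2f i) (β i) (hβ i)
  obtain ⟨t, ht⟩ : ∃ t, t = algebraMap L Ω (((d : ℤ) : L) * θ) := ⟨_, rfl⟩
  have hn2 := fun i => hn i Ω _ hRt U.deg3
  have hcnd : ∀ i, Cnd (𝓞 Ω) ∅ T' (algebraMap L Ω θ) (aeval t (h i)) := by
    intro i
    rw [ht]
    exact U.cnd H (fun w hw => H.p.glr M (𝓞 M) _ _ h6M hdisc (f i) (hf i) (h2f i) (β i) (h i) (hβ i)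
      (hh i) w (val_two hw) (hloc i w)) (hn2 i).1
  rw [← ht] at hn2 hRt
  haveI := gal_up U.top
  haveI : FiniteDimensional L Ω := FiniteDimensional.right ℚ L Ω
  have hcard : Fintype.card (Gal(Ω/L) → G) <
      Fintype.card (Fin ((N + 1) ^ Module.finrank ℚ M + 1)) := by
    rw [Fintype.card_fin, Fintype.card_fun]
    have e1 : Fintype.card Gal(Ω/L) = Module.finrank L Ω := by
      rw [← Nat.card_eq_fintype_card]
      exact IsGalois.card_aut_eq_finrank L Ω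
    haveI : FiniteDimensional M Ω := FiniteDimensional.of_finrank_pos (by rw [U.deg3]; norm_num)
    have e2 : Module.finrank L Ω = Module.finrank ℚ M := by
      have k1 := Module.finrank_mul_finrank ℚ L Ω
      have k2 := Module.finrank_mul_finrank ℚ M Ω
      rw [U.cub.rank] at k1
      rw [U.deg3] at k2
      omega
    rw [e1, e2]
    exact Nat.lt_succ_of_le (Nat.pow_le_pow_left hcd _)
  obtain ⟨i, j, hij, he⟩ := Fintype.exists_ne_map_eq_of_card_lt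
    (fun i (σ : Gal(Ω/L)) => χ (σ (aeval t (h i)))) hcard
  refine ⟨i, j, hij, ?_⟩
  have hsq : IsSquare (aeval t (h i * h j)) := by
    rw [map_mul]
    refine h2 _ (mul_ne_zero (hn2 i).1 (hn2 j).1) (U.cmul H _ _ (hn2 i).1 (hn2 j).1 (hcnd i) (hcnd j))
      ?_ fun σ => ?_
    · rw [map_mul]
      exact (hn2 i).2.mul (hn2 j).2
    · have h3 : χ (σ (aeval t (h i))) = χ (σ (aeval t (h j))) := congrFun he σ
      rw [map_mul, h1 _ _ ((_root_.map_ne_zero _).2 (hn2 i).1) ((_root_.map_ne_zero _).2 (hn2 j).1), h3]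
      exact htwo _
  obtain ⟨T₀, hT1, hT2⟩ := H.p.gt M _ _ h6M hdisc hirrD (fun σ => f i σ + f j σ)
    (coc_add (hf i) (hf j)) (fun σ => by rw [smul_add, h2f, h2f, add_zero])
    (fun t => β i t * β j t) (h i * h j) (beta_add h6M hdisc hirrD (h2f i) (h2f j) (hβ i) (hβ j))
    (fun t ht => by rw [map_mul, hh i t ht, hh j t ht, mul_pow]) Ω t hRt U.deg3 hsq
  refine ⟨T₀, hT1, fun σ => ?_⟩
  rw [← hT2 σ]
  have h3 := h2f j σ
  rw [two_nsmul] at h3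
  have h4 : f j σ = -f j σ := eq_neg_of_add_eq_zero_left h3
  rw [sub_eq_add_neg, ← h4]

end SV

end

end Pool.Agent.K6.H88.AV
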