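import Pool.Agent.K6.H88.TC.SelSub
import Pool.Agent.K6.H88.AV.SelC

/-!
# The bounds over all subfields in terms of the number of classes

Helper88 (project AV), adapted from `Pool.Agent.K6.H88.TC.SubB` and `Pool.Agent.K6.H88.TC.SelSub`.
-/

set_option autoImplicit false
set_option linter.all false

open Polynomial IsDedekindDomain WeierstrassCurve WeierstrassCurve.Affine NumberField
open Pool.Agent.TH115.GD
open scoped Classical IntermediateField

namespace Pool.Agent.K6.H88.AV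

open Pool.Agent.N922.PQ
open Pool.Agent.N874.PP (Tup chA chB gq tau Two Ev Sq1 U0 sW IsBeta Rt sg)
open Pool.Agent.N874.PM (PLoc Lies SelR ShaR)
open Pool.Agent.K6.H88.TC

/-- A set which contains all but one elements of every fibre. -/
theorem exists_selG {X Y : Type} [Finite X] [Finite Y] [Fintype X] {G : Type} [AddCommGroup G]
    (p : X → Y) (hp : Function.Surjective p) :
    ∃ R : Set X, Nat.card R + Nat.card Y = Nat.card X ∧ ∀ φ : X → G,
      (∀ y, ∑ x with p x = y, φ x = 0) → (∀ x ∈ R, φ x = 0) → ∀ x, φ x = 0 := by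
  obtain ⟨s, hs⟩ := hp.hasRightInverse
  refine ⟨(Set.range s)ᶜ, ?_, fun φ h1 h2 x => ?_⟩
  · have h3 : Nat.card (Set.range s) = Nat.card Y := Nat.card_range_of_injective hs.injective
    have h4 := Set.ncard_add_ncard_compl (Set.range s)
    rw [← h3]
    have h5 : Nat.card ((Set.range s)ᶜ : Set X) = ((Set.range s)ᶜ : Set X).ncard := rfl
    have h6 : Nat.card (Set.range s) = (Set.range s).ncard := rfl
    rw [h5, h6, add_comm]
    exact h4
  · by_cases hx : x ∈ (Set.range s)ᶜ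
    · exact h2 x hx
    · rw [Set.notMem_compl_iff] at hx
      obtain ⟨y, rfl⟩ := hx
      have h3 := h1 y
      rw [Finset.sum_eq_single (s y)] at h3
      · exact h3
      · intro x hx hne
        apply h2
        rintro ⟨y', rfl⟩
        rw [Finset.mem_filter] at hx
        apply hne
        rw [← hx.2, hs]
      · intro h
        exfalso
        apply h
        rw [Finset.mem_filter]
        exact ⟨Finset.mem_univ _, hs y⟩

section

variable {M : Type} [Field M] [NumberField M] [IsGalois ℚ M] {F F' : Type} [Field F] [NumberField F]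
  [Field F'] [NumberField F'] {G : Type} [AddCommGroup G]

/-- The kernel of the map for a subfield. -/
theorem ker_FG (W : WeierstrassCurve ℚ) (ψ : Pt W M →+ G)
    (hψ : ∀ P : Pt W M, (∀ τ : Gal(M/ℚ), ψ (act W (ak τ) P) = 0) → ∃ Q : Pt W M, P = (2 : ℕ) • Q)
    (h2M : ∀ P : Pt W M, (2 : ℕ) • P = 0 → P = 0) (φ₀ : F →ₐ[ℚ] M) (P : Pt W F)
    (hP : ∀ φ : F →ₐ[ℚ] M, ψ (act W φ P) = 0) : ∃ Q : Pt W F, P = (2 : ℕ) • Q := by
  obtain ⟨Q, hQ⟩ := hψ (act W φ₀ P) (fun τ => by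
    rw [Pool.Agent.K6.H88.TC.act_act]
    exact hP _)
  obtain ⟨R, hR⟩ := desc_pt W φ₀ Q (fun τ hτ => by
    have h1 : act W (ak τ) (act W φ₀ P) = act W φ₀ P := by
      rw [Pool.Agent.K6.H88.TC.act_act]
      congr 1
      have e : (ak τ : M →ₐ[ℚ] M).comp φ₀ = φ₀ := by
        ext x
        exact hτ ⟨φ₀ x, ⟨x, rfl⟩⟩
      rw [e]
    have h2 : (2 : ℕ) • (act W (ak τ) Q - Q) = 0 := by
      rw [smul_sub, ← map_nsmul, ← hQ, h1, sub_self]
    exact sub_eq_zero.1 (h2M _ h2))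
  refine ⟨R, Pool.Agent.K6.H88.TC.act_inj W φ₀ ?_⟩
  rw [map_nsmul, hR, hQ]

/-- The bound for the rank. -/
theorem rank_subG [Fintype G] (W : WeierstrassCurve ℚ) (ψ : Pt W M →+ G)
    (hψ : ∀ P : Pt W M, (∀ τ : Gal(M/ℚ), ψ (act W (ak τ) P) = 0) → ∃ Q : Pt W M, P = (2 : ℕ) • Q)
    (h2M : ∀ P : Pt W M, (2 : ℕ) • P = 0 → P = 0) (φ₀ : F →ₐ[ℚ] M) (hfg : AddGroup.FG (Pt W F)) :
    2 ^ Module.finrank ℤ (Pt W F) ≤ Fintype.card G ^ Module.finrank ℚ F := by
  have h1 := rank_card hfg (W := (F →ₐ[ℚ] M) → G)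
    (Pi.addMonoidHom fun ρ : F →ₐ[ℚ] M => ψ.comp (act W ρ))
    (fun P hP => ker_FG W ψ hψ h2M φ₀ P fun φ => congrFun hP φ)
  rwa [Nat.card_fun, Nat.card_eq_fintype_card (α := G), card_emb φ₀] at h1

/-- The bound for the growth of the rank. -/
theorem grow_subG [Fintype G] (hG : ∀ u : G, u + u = 0) (W : WeierstrassCurve ℚ) (ψ : Pt W M →+ G)
    (hψ : ∀ P : Pt W M, (∀ τ : Gal(M/ℚ), ψ (act W (ak τ) P) = 0) → ∃ Q : Pt W M, P = (2 : ℕ) • Q)
    (h2M : ∀ P : Pt W M, (2 : ℕ) • P = 0 → P = 0)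
    (φ₀ : F →ₐ[ℚ] M) (j : F' →ₐ[ℚ] F) (hfg : AddGroup.FG (Pt W F)) (hfg' : AddGroup.FG (Pt W F')) :
    2 ^ Module.finrank ℤ (Pt W F) * Fintype.card G ^ Module.finrank ℚ F' ≤
      2 ^ Module.finrank ℤ (Pt W F') * Fintype.card G ^ Module.finrank ℚ F := by
  have hψF : ∀ P : Pt W F, (∀ φ : F →ₐ[ℚ] M, ψ (act W φ P) = 0) → ∃ Q : Pt W F, P = (2 : ℕ) • Q :=
    fun P hP => ker_FG W ψ hψ h2M φ₀ P hP
  have h2F' : ∀ P : Pt W F', (2 : ℕ) • P = 0 → P = 0 := by
    intro P hP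
    apply Pool.Agent.K6.H88.TC.act_inj W (φ₀.comp j)
    rw [map_zero]
    apply h2M
    rw [← map_nsmul, hP, map_zero]
  obtain ⟨tr, htr⟩ := exists_tr' W j φ₀
  obtain ⟨c, hc⟩ := exists_coord hfg' h2F'
  obtain ⟨R, hR, hR2⟩ := exists_selG (G := G) _ (comp_surj j φ₀)
  rw [card_emb φ₀, card_emb (φ₀.comp j)] at hR
  have h1 := rank_card hfg (W := (Fin (Module.finrank ℤ (Pt W F')) → ZMod 2) × (R → G))
    ((c.comp tr).prod (Pi.addMonoidHom fun ρ : R => ψ.comp (act W (ρ : F →ₐ[ℚ] M))))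
    (fun P hP => by
      have hP1 : c (tr P) = 0 := congrArg Prod.fst hP
      have hP2 : ∀ ρ ∈ R, ψ (act W ρ P) = 0 := fun ρ hρ =>
        congrFun (congrArg Prod.snd hP) ⟨ρ, hρ⟩
      apply hψF
      refine hR2 (fun φ => ψ (act W φ P)) (fun φ' => ?_) hP2
      obtain ⟨Q, hQ⟩ := hc _ hP1
      have h3 := htr φ' P
      rw [hQ, map_nsmul] at h3
      rw [← map_sum, ← h3, map_nsmul, two_nsmul]
      exact hG _)
  rw [Nat.card_prod, Nat.card_fun, Nat.card_fun, Nat.card_zmod,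
    Nat.card_eq_fintype_card (α := Fin (Module.finrank ℤ (Pt W F'))),
    Fintype.card_fin, Nat.card_eq_fintype_card (α := G)] at h1
  calc 2 ^ Module.finrank ℤ (Pt W F) * Fintype.card G ^ Module.finrank ℚ F'
      ≤ 2 ^ Module.finrank ℤ (Pt W F') * Fintype.card G ^ Nat.card R *
        Fintype.card G ^ Module.finrank ℚ F' := Nat.mul_le_mul_right _ h1
    _ = 2 ^ Module.finrank ℤ (Pt W F') * Fintype.card G ^ Module.finrank ℚ F := by
        rw [mul_assoc, ← pow_add, hR]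

end

section su

variable {L M Ω : Type} [Field L] [NumberField L] [Field M] [NumberField M]
  [Field Ω] [NumberField Ω] [Algebra L Ω] [Algebra M Ω]

variable {a b : ℤ} {θ : L} {X' : ℕ} {T' : Finset ℤ} {d : ℤ} {n N : ℕ}

/-- There is no point of order two. -/
theorem SV.nrF (U : SV L M Ω a b θ X' T' d n N) [IsGalois ℚ M] (H : Parts2) {F : Type} [Field F]
    [CharZero F] (i : F →+* M) (x : F) :
    x ^ 3 + (((a * d ^ 2 : ℤ)) : F) * x + (((b * d ^ 3 : ℤ)) : F) ≠ 0 := by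
  intro hx
  have h1 := congrArg i hx
  rw [map_zero, map_add, map_add, map_mul, map_pow, map_intCast, map_intCast] at h1
  exact U.nr H (i x) h1

/-- The bound for the Selmer group over a subfield. -/
theorem SV.sel_sub (U : SV L M Ω a b θ X' T' d n N) [IsGalois ℚ M] (H : Parts2)
    (hu : ∀ (E : Type) [Field E] [CharZero E] (t : E), t ^ 3 + (a : E) * t + (b : E) = 0 →
      ∃ φ : L →+* E, φ θ = t) {F : Type} [Field F] [NumberField F] (i : F →+* M) :
    SelLe (𝓞 F) (sW (((a * d ^ 2 : ℤ)) : F) (((b * d ^ 3 : ℤ)) : F))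
      ((N + 1) ^ Module.finrank ℚ F) := by
  have h6 : (6 : F) ≠ 0 := by norm_num
  obtain ⟨G, g1, g2, χ, hcd, htwo, h1, h2⟩ := U.exists_map H
  obtain ⟨E, i1, i2, i3, i4, ι, htE, hrE, hcomp, hL⟩ := exists_E (Ω := Ω) U.cub hu i (fun x hx => by
    have h1 := congrArg i hx
    rw [map_zero, map_add, map_add, map_mul, map_pow, map_intCast, map_intCast] at h1
    exact nr_M H U.ao U.bo M U.deg _ h1)
  have hb := U.bas
  have hbE := bas_M (M := F) (Ω := E) U.hcm (top_tw htE U.d0) hrE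
  have hirr := irr_tw' (U.nrF H i)
  have hdisc : 4 * (((a * d ^ 2 : ℤ)) : F) ^ 3 + 27 * (((b * d ^ 3 : ℤ)) : F) ^ 2 ≠ 0 := by
    have h1 := U.dsc_ne
    unfold dsc at h1
    exact_mod_cast h1
  have hRt : Rt (((a * d ^ 2 : ℤ)) : F) (((b * d ^ 3 : ℤ)) : F)
      (algebraMap L E (((d : ℤ) : L) * θ)) := hbE.root
  intro f hf h2f hloc
  choose β hβ using fun k => H.p.gb F _ _ h6 hdisc hirr (f k) (hf k) (h2f k)
  choose h hh hn using fun k => H.p.gn F _ _ h6 hdisc hirr (f k) (hf k) (h2f k) (β k) (hβ k)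
  obtain ⟨t, ht⟩ : ∃ t, t = algebraMap L Ω (((d : ℤ) : L) * θ) := ⟨_, rfl⟩
  obtain ⟨tE, htE'⟩ : ∃ tE, tE = algebraMap L E (((d : ℤ) : L) * θ) := ⟨_, rfl⟩
  have hn2 := fun k => hn k E _ hRt hrE
  rw [← htE'] at hn2 hRt hbE
  rw [← ht] at hb
  have hιt : ι tE = t := by rw [htE', ht, hL]
  -- the images of the elements
  have hX : ∀ k, ι (aeval tE (h k)) = aeval t ((h k).map i) := by
    intro k
    rw [← hιt, aeval_def, aeval_def, hom_eval₂, eval₂_map]
    congr 1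
    exact RingHom.ext hcomp
  have hX0 : ∀ k, aeval t ((h k).map i) ≠ 0 := by
    intro k
    rw [← hX]
    exact (_root_.map_ne_zero _).2 (hn2 k).1
  have hcnd : ∀ k, Cnd (𝓞 Ω) ∅ T' (algebraMap L Ω θ) (aeval t ((h k).map i)) := by
    intro k
    have hX1 := hX0 k
    rw [ht] at hX1 ⊢
    exact U.cnd H (ploc_up H.p.lie i fun v hv => H.p.glr F (𝓞 F) _ _ h6 hdisc (f k) (hf k) (h2f k)
      (β k) (h k) (hβ k) (hh k) v (val_two hv) (hloc k v)) hX1
  have hcard : Fintype.card ((F →ₐ[ℚ] M) → G) <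
      Fintype.card (Fin ((N + 1) ^ Module.finrank ℚ F + 1)) := by
    rw [Fintype.card_fin, Fintype.card_fun, ← card_emb i.toRatAlgHom,
      Nat.card_eq_fintype_card]
    exact Nat.lt_succ_of_le (Nat.pow_le_pow_left hcd _)
  obtain ⟨k, l, hkl, he⟩ := Fintype.exists_ne_map_eq_of_card_lt
    (fun k (φ : F →ₐ[ℚ] M) => χ (aeval t ((h k).map (φ : F →+* M)))) hcard
  refine ⟨k, l, hkl, ?_⟩
  have hσ : ∀ (σ : Gal(Ω/L)) (τ : Gal(M/ℚ)), (∀ x : M, algebraMap M Ω (τ x) = σ (algebraMap M Ω x)) →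
      ∀ k, σ (aeval t ((h k).map i)) =
        aeval t ((h k).map (((τ : M →ₐ[ℚ] M).comp i.toRatAlgHom : F →ₐ[ℚ] M) : F →+* M)) := by
    intro σ τ hστ k
    have hσt : σ t = t := by
      rw [ht]
      exact σ.commutes _
    rw [aeval_def, aeval_def, eval₂_map, eval₂_map]
    have h3 := hom_eval₂ (h k) ((algebraMap M Ω).comp i) ((σ : Ω ≃+* Ω) : Ω →+* Ω) t
    have h4 : ((σ : Ω ≃+* Ω) : Ω →+* Ω) t = t := hσt
    rw [h4] at h3
    refine h3.trans ?_
    congr 1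
    ext x
    exact (hστ (i x)).symm
  have hsqΩ : IsSquare (ι (aeval tE (h k * h l))) := by
    rw [map_mul, map_mul, hX, hX]
    refine h2 _ (mul_ne_zero (hX0 k) (hX0 l)) (U.cmul H _ _ (hX0 k) (hX0 l) (hcnd k) (hcnd l))
      ?_ fun σ => ?_
    · rw [map_mul, ← hX, ← hX,
        norm_up' i ι hcomp (map_intCast i _) (map_intCast i _) hιt hbE hb,
        norm_up' i ι hcomp (map_intCast i _) (map_intCast i _) hιt hbE hb]
      exact ((hn2 k).2.map i).mul ((hn2 l).2.map i)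
    · obtain ⟨τ, hτ⟩ := restr (M := M) σ
      have h3 := congrFun he ((τ : M →ₐ[ℚ] M).comp i.toRatAlgHom)
      have h3' : χ (aeval t ((h k).map (((τ : M →ₐ[ℚ] M).comp i.toRatAlgHom : F →ₐ[ℚ] M) : F →+* M))) =
        χ (aeval t ((h l).map (((τ : M →ₐ[ℚ] M).comp i.toRatAlgHom : F →ₐ[ℚ] M) : F →+* M))) := h3
      rw [map_mul, h1 _ _ ((_root_.map_ne_zero _).2 (hX0 k)) ((_root_.map_ne_zero _).2 (hX0 l)),
        hσ σ τ hτ, hσ σ τ hτ, h3']
      exact htwo _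
  have hsq : IsSquare (aeval tE (h k * h l)) := by
    refine inj_sqF (a := a) (b := b) U.top U.deg3 i ι hcomp hL (map_intCast i _) (map_intCast i _) hιt hbE hb
      ?_ ?_ hsqΩ
    · rw [map_mul]
      exact mul_ne_zero (hn2 k).1 (hn2 l).1
    · rw [map_mul, map_mul]
      exact (hn2 k).2.mul (hn2 l).2
  obtain ⟨T₀, hT1, hT2⟩ := H.p.gt F _ _ h6 hdisc hirr (fun σ => f k σ + f l σ)
    (coc_add (hf k) (hf l)) (fun σ => by rw [smul_add, h2f, h2f, add_zero])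
    (fun t => β k t * β l t) (h k * h l) (beta_add h6 hdisc hirr (h2f k) (h2f l) (hβ k) (hβ l))
    (fun t ht => by rw [map_mul, hh k t ht, hh l t ht, mul_pow]) E tE hRt hrE hsq
  refine ⟨T₀, hT1, fun σ => ?_⟩
  rw [← hT2 σ]
  have h3 := h2f l σ
  rw [two_nsmul] at h3
  have h4 : f l σ = -f l σ := eq_neg_of_add_eq_zero_left h3
  rw [sub_eq_add_neg, ← h4]

/-- The map on the points. -/
theorem SV.exists_psi (U : SV L M Ω a b θ X' T' d n N) [IsGalois ℚ M] (H : Parts2) :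
    ∃ (G : Type) (_ : AddCommGroup G) (_ : Fintype G) (ψ : EQ (a * d ^ 2) (b * d ^ 3) M →+ G),
    Fintype.card G ≤ N + 1 ∧ (∀ u : G, u + u = 0) ∧
    ∀ P, (∀ τ : Gal(M/ℚ), ψ (act _ (ak τ) P) = 0) → ∃ Q, P = (2 : ℕ) • Q := by
  obtain ⟨G, g1, g2, χ, hcd, htwo, h1, h2⟩ := U.exists_map H
  have hb := U.bas
  obtain ⟨t, ht⟩ : ∃ t, t = algebraMap L Ω (((d : ℤ) : L) * θ) := ⟨_, rfl⟩
  rw [← ht] at hb
  have hsq0 : ∀ y : Ω, y ≠ 0 → χ (y * y) = 0 := by
    intro y hy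
    rw [h1 y y hy hy]
    exact htwo _
  have hadd : ∀ P Q : EQ (a * d ^ 2) (b * d ^ 3) M,
      χ (kq _ _ t (P + Q)) = χ (kq _ _ t P) + χ (kq _ _ t Q) := by
    intro P Q
    obtain ⟨y, hy⟩ := kq_add hb P Q
    have n1 := kq_ne hb P
    have n2 := kq_ne hb Q
    have n3 := kq_ne hb (P + Q)
    have hy0 : y ≠ 0 := by
      rintro rfl
      rw [mul_zero] at hy
      exact mul_ne_zero (mul_ne_zero n1 n2) n3 hy
    have h3 := congrArg χ hy
    rw [hsq0 y hy0, h1 _ _ (mul_ne_zero n1 n2) n3, h1 _ _ n1 n2] at h3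
    have h4 : ∀ p q r : G, p + q + r = 0 → r = p + q := by
      intro p q r h
      have h5 := htwo r
      exact add_right_cancel (h5.trans h.symm)
    exact h4 _ _ _ h3
  refine ⟨G, g1, g2, { toFun := fun P => χ (kq _ _ t P), map_zero' := ?_, map_add' := hadd }, hcd, htwo,
    fun P hP => ?_⟩
  · rw [kq_zero]
    have := hsq0 1 one_ne_zero
    rwa [mul_one] at this
  · apply kq_ker hb
    obtain ⟨h, hh, hPL⟩ := kq_ploc (t := t) (U.nr H) P
    refine h2 _ (kq_ne hb P) ?_ (kq_norm hb P) fun σ => ?_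
    · rw [hh, ht]
      refine U.cnd H (fun w hw => hPL _) ?_
      rw [← ht, ← hh]
      exact kq_ne hb P
    · obtain ⟨τ, hτ⟩ := restr (M := M) σ
      have h3 := kq_act (A := a * d ^ 2) (B := b * d ^ 3)
        (σ : Ω ≃+* Ω) (ak τ) hτ (t := t) (by
          rw [ht]
          exact σ.commutes _) P
      have h4 := hP τ
      change χ (kq _ _ t (act _ (ak τ) P)) = 0 at h4
      rw [← h3] at h4
      exact h4

/-- The rank over subfields. -/
theorem SV.rank_sub (U : SV L M Ω a b θ X' T' d n N) [IsGalois ℚ M] (H : Parts2)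
    {F : Type} [Field F] [NumberField F] (i : F →+* M) :
    AddGroup.FG (Pt (sW (((a * d ^ 2 : ℤ)) : F) (((b * d ^ 3 : ℤ)) : F)) F) ∧
    2 ^ Module.finrank ℤ (Pt (sW (((a * d ^ 2 : ℤ)) : F) (((b * d ^ 3 : ℤ)) : F)) F) ≤
      (N + 1) ^ Module.finrank ℚ F := by
  obtain ⟨G, g1, g2, ψ, hcd, htwo, hψ⟩ := U.exists_psi H
  constructor
  · refine Pool.Agent.N273.PQ.mw F _ _ ?_
    have h1 := U.dsc_ne
    unfold dsc at h1
    exact_mod_cast h1
  · rw [← rank_eq]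
    exact (rank_subG _ ψ hψ (two_EQ M (U.nrF H (RingHom.id M))) i.toRatAlgHom
      (fg_EQ F U.dsc_ne)).trans (Nat.pow_le_pow_left hcd _)

/-- The growth of the rank in subfields. -/
theorem SV.grow_sub (U : SV L M Ω a b θ X' T' d n N) [IsGalois ℚ M] (H : Parts2)
    {F F' : Type} [Field F] [NumberField F] [Field F'] [NumberField F'] (i : F →+* M) (j : F' →+* F) :
    2 ^ Module.finrank ℤ (Pt (sW (((a * d ^ 2 : ℤ)) : F) (((b * d ^ 3 : ℤ)) : F)) F) *
      (N + 1) ^ Module.finrank ℚ F' ≤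
    2 ^ Module.finrank ℤ (Pt (sW (((a * d ^ 2 : ℤ)) : F') (((b * d ^ 3 : ℤ)) : F')) F') *
      (N + 1) ^ Module.finrank ℚ F := by
  obtain ⟨G, g1, g2, ψ, hcd, htwo, hψ⟩ := U.exists_psi H
  rw [← rank_eq, ← rank_eq]
  have h1 := grow_subG htwo _ ψ hψ (two_EQ M (U.nrF H (RingHom.id M))) i.toRatAlgHom
    j.toRatAlgHom (fg_EQ F U.dsc_ne) (fg_EQ F' U.dsc_ne)
  have hG0 : 0 < Fintype.card G := Fintype.card_pos
  have hle : Module.finrank ℚ F' ≤ Module.finrank ℚ F := by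
    letI : Algebra F' F := j.toAlgebra
    have h2 := Module.finrank_mul_finrank ℚ F' F
    have h3 : 0 < Module.finrank F' F := Module.finrank_pos
    calc Module.finrank ℚ F' = Module.finrank ℚ F' * 1 := (mul_one _).symm
      _ ≤ Module.finrank ℚ F' * Module.finrank F' F := Nat.mul_le_mul_left _ h3
      _ = Module.finrank ℚ F := h2
  obtain ⟨e, he⟩ := Nat.exists_eq_add_of_le hle
  rw [he] at h1 ⊢
  rw [pow_add, mul_comm (Fintype.card G ^ _) (Fintype.card G ^ e), ← mul_assoc] at h1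
  have h4 := Nat.le_of_mul_le_mul_right h1 (pow_pos hG0 _)
  rw [pow_add, mul_comm ((N + 1) ^ _) ((N + 1) ^ e), ← mul_assoc]
  refine Nat.mul_le_mul_right _ (h4.trans ?_)
  exact Nat.mul_le_mul_left _ (Nat.pow_le_pow_left hcd _)

end su

end Pool.Agent.K6.H88.AV
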